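import Mathlib

set_option autoImplicit false

namespace Pool.Agent.H630R2.LA

/-- The tape symbols of a machine whose work alphabet is `W` together with the two end-markers:
`lm` is the left end-marker, `rm` is the right end-marker, `sym w` is the symbol `w` of `W`. -/
inductive Sym (W : Type) : Type
  | lm : Sym W
  | rm : Sym W
  | sym (w : W) : Sym W

/-- The content of a cell after the symbol `b` has been written in it: cells holding end-markers
are never changed. -/
def Sym.rewrite {W : Type} : Sym W → W → Sym W
  | .lm, _ => .lm
  | .rm, _ => .rm
  | .sym _, b => .sym b

/-- A 1-limited automaton over the input alphabet `A`.  `Q` is the finite set of states, `W` is the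
finite work alphabet without the end-markers, `inp` embeds the input alphabet in `W`, `q0` is the
initial state, `F` is the set of final states and `(q, b, d) ∈ δ p σ` means that in state `p`
scanning `σ` the machine may enter state `q`, write `b` and move right (`d = true`) or left
(`d = false`). -/
structure LimAut (A : Type) where
  Q : Type
  W : Type
  finQ : Finite Q
  finW : Finite W
  inp : A → W
  inp_inj : Function.Injective inp
  δ : Q → Sym W → Set (Q × W × Bool)
  q0 : Q
  F : Set Q

variable {A : Type}

/-- A configuration: state, position of the head, content of the tape, set of visited cells. -/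
structure Cfg (M : LimAut A) where
  state : M.Q
  pos : ℕ
  tape : ℕ → Sym M.W
  seen : Set ℕ

/-- The initial tape for the input `w`: the left end-marker in cell `0`, the letters of `w` in the
cells `1, ..., |w|` and the right end-marker in cell `|w| + 1` (and, as a convention, in the
non-existing cells behind it, which are never scanned). -/
def initTape (M : LimAut A) (w : List A) : ℕ → Sym M.W
  | 0 => .lm
  | i + 1 => match w[i]? with
    | some a => .sym (M.inp a)
    | none => .rm

/-- The initial configuration: the head is on cell `1`, no cell has been visited. -/
def init (M : LimAut A) (w : List A) : Cfg M := ⟨M.q0, 1, initTape M w, ∅⟩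

/-- One move on an input of length `n`, whose tape has the cells `0, ..., n + 1`.  The scanned cell
is rewritten if it is visited for the first time and holds no end-marker, otherwise it keeps its
content.  If `strict` holds then a move that would change the content of a visited cell is
forbidden; if `strict` fails such a move is allowed and leaves the content unchanged.  The head
may leave the tape only to the right (position `n + 2`). -/
def Step (strict : Prop) {M : LimAut A} (n : ℕ) (c c' : Cfg M) : Prop :=
  c.pos ≤ n + 1 ∧ ∃ (q : M.Q) (b : M.W) (d : Bool), (q, b, d) ∈ M.δ c.state (c.tape c.pos) ∧
    (strict → c.pos ∈ c.seen → (c.tape c.pos).rewrite b = c.tape c.pos) ∧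
    c'.state = q ∧
    (c.pos ∈ c.seen → c'.tape = c.tape) ∧
    (c.pos ∉ c.seen → c'.tape = Function.update c.tape c.pos ((c.tape c.pos).rewrite b)) ∧
    c'.seen = insert c.pos c.seen ∧
    (d = true → c'.pos = c.pos + 1) ∧
    (d = false → c'.pos + 1 = c.pos)

/-- The language of `M`: the inputs on which some computation path moves past the right end-marker
in a final state. -/
def LimAut.language (strict : Prop) (M : LimAut A) : Set (List A) :=
  {w | ∃ c : Cfg M, Relation.ReflTransGen (Step strict w.length) (init M w) c ∧
    c.pos = w.length + 2 ∧ c.state ∈ M.F}

/-- `M` is deterministic: at most one move for every state and every tape symbol. -/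
def LimAut.Deterministic (M : LimAut A) : Prop := ∀ q σ, (M.δ q σ).Subsingleton

/-- The number of quintuples `(p, σ, q, b, d)` with `(q, b, d) ∈ δ p σ`. -/
noncomputable def LimAut.numTrans (M : LimAut A) : ℕ :=
  {t : M.Q × Sym M.W × M.Q × M.W × Bool | t.2.2 ∈ M.δ t.1 t.2.1}.ncard

/-- The size of a machine: the number of symbols of its description, which lists the states, the
input alphabet, the work alphabet (with the two end-markers), the quintuples of the transition
function, the initial state and the final states. -/
noncomputable def LimAut.size (M : LimAut A) : ℕ :=
  Nat.card M.Q + Nat.card A + (Nat.card M.W + 2) + 5 * M.numTrans + 1 + M.F.ncard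

/-- The least size of a deterministic 1-limited automaton with language `L`. -/
noncomputable def detSize (strict : Prop) (L : Set (List A)) : ℕ :=
  sInf {s | ∃ M : LimAut A, M.Deterministic ∧ M.language strict = L ∧ M.size = s}

/-- The set of the values `detSize L(M)`, for `M` of size at most `n`. -/
def costs (strict : Prop) (n : ℕ) : Set ℕ :=
  {s | ∃ (A : Type) (_ : Finite A) (M : LimAut A), M.size ≤ n ∧
    s = detSize strict (M.language strict)}

/-- The cost function `D(n)`. -/
noncomputable def D (strict : Prop) (n : ℕ) : ℕ := sSup (costs strict n)

end Pool.Agent.H630R2.LA
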