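import Mathlib
import Pool.Agent.H630R2.LA.Defs

set_option autoImplicit false

namespace Pool.Agent.H630R2.LA

open Relation

variable {A : Type} (strict : Prop) (M : LimAut A)

/-- A move on a frozen cell (or an end-marker). -/
def fz (p : M.Q) (σ : Sym M.W) (q : M.Q) (d : Bool) : Prop :=
  ∃ b, (q, b, d) ∈ M.δ p σ ∧ (strict → σ.rewrite b = σ)

/-- A move in the frozen part `0..m`. -/
def Fr (τ : ℕ → Sym M.W) (m : ℕ) (c c' : M.Q × ℕ) : Prop :=
  c.2 ≤ m ∧ ∃ d, fz strict M c.1 (τ c.2) c'.1 d ∧ (d = true → c'.2 = c.2 + 1) ∧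
    (d = false → c'.2 + 1 = c.2)

/-- The table of the frozen part `0..m`. -/
def Tab (τ : ℕ → Sym M.W) (m : ℕ) : Set (M.Q × M.Q) :=
  {x | ReflTransGen (Fr strict M τ m) (x.1, m) (x.2, m + 1)}

/-- The table after one more cell. -/
def ext (R : Set (M.Q × M.Q)) (σ : Sym M.W) : Set (M.Q × M.Q) :=
  {x | ∃ s, ReflTransGen (fun y z => ∃ r, fz strict M y σ r false ∧ (r, z) ∈ R) x.1 s ∧
    fz strict M s σ x.2 true}

variable {strict M}

theorem Fr.mono {τ : ℕ → Sym M.W} {m m' : ℕ} (h : m ≤ m') {c c' : M.Q × ℕ}
    (hc : Fr strict M τ m c c') : Fr strict M τ m' c c' := ⟨hc.1.trans h, hc.2⟩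

theorem FrS.mono {τ : ℕ → Sym M.W} {m m' : ℕ} (h : m ≤ m') {c c' : M.Q × ℕ}
    (hc : ReflTransGen (Fr strict M τ m) c c') : ReflTransGen (Fr strict M τ m') c c' :=
  ReflTransGen.mono (fun _ _ => Fr.mono h) _ _ hc

theorem FrS.congr {τ τ' : ℕ → Sym M.W} {m : ℕ} (h : ∀ i, i ≤ m → τ i = τ' i) {c c' : M.Q × ℕ}
    (hc : ReflTransGen (Fr strict M τ m) c c') : ReflTransGen (Fr strict M τ' m) c c' := by
  refine ReflTransGen.mono ?_ _ _ hc
  rintro x y ⟨h1, d, h2, h3⟩
  exact ⟨h1, d, by rw [← h _ h1]; exact h2, h3⟩

theorem Tab.congr {τ τ' : ℕ → Sym M.W} {m : ℕ} (h : ∀ i, i ≤ m → τ i = τ' i) :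
    Tab strict M τ m = Tab strict M τ' m := by
  ext x
  exact ⟨fun hx => FrS.congr h hx, fun hx => FrS.congr (fun i hi => (h i hi).symm) hx⟩

/-- Decomposition: a path inside `0..m+1` from a cell `x ≤ m + 1` to `m + 2` first reaches
`m + 1` inside `0..m`. -/
theorem FrS.decomp {τ : ℕ → Sym M.W} {m : ℕ} {c : M.Q × ℕ} {f : M.Q}
    (hc : ReflTransGen (Fr strict M τ (m + 1)) c (f, m + 2)) (hx : c.2 ≤ m + 1) :
    ∃ t, ReflTransGen (Fr strict M τ m) c (t, m + 1) ∧
      ReflTransGen (Fr strict M τ (m + 1)) (t, m + 1) (f, m + 2) := by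
  induction hc using ReflTransGen.head_induction_on with
  | refl => simp at hx
  | head h1 h2 ih =>
    rename_i a b
    by_cases ha : a.2 = m + 1
    · refine ⟨a.1, ?_, ?_⟩
      · have : a = (a.1, m + 1) := by rw [← ha]
        rw [← this]
      · have : (a.1, m + 1) = a := by rw [← ha]
        rw [this]
        exact ReflTransGen.head h1 h2
    · have ham : a.2 ≤ m := by omega
      obtain ⟨h3, d, h4, h5, h6⟩ := h1
      have hb : b.2 ≤ m + 1 := by
        cases d
        · have := h6 rfl; omega
        · have := h5 rfl; omega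
      obtain ⟨t, ht1, ht2⟩ := ih hb
      exact ⟨t, ReflTransGen.head ⟨ham, d, h4, h5, h6⟩ ht1, ht2⟩

theorem mem_ext_loop {R : Set (M.Q × M.Q)} {σ : Sym M.W} {p r s q : M.Q}
    (h1 : fz strict M p σ r false) (h2 : (r, s) ∈ R) (h3 : (s, q) ∈ ext strict M R σ) :
    (p, q) ∈ ext strict M R σ := by
  obtain ⟨t, ht, h4⟩ := h3
  exact ⟨t, ReflTransGen.head ⟨r, h1, h2⟩ ht, h4⟩

theorem mem_ext_right {R : Set (M.Q × M.Q)} {σ : Sym M.W} {p q : M.Q}
    (h1 : fz strict M p σ q true) : (p, q) ∈ ext strict M R σ := ⟨p, ReflTransGen.refl, h1⟩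

theorem Tab_zero (τ : ℕ → Sym M.W) : Tab strict M τ 0 = ext strict M ∅ (τ 0) := by
  ext x
  obtain ⟨p, q⟩ := x
  constructor
  · intro h
    have h' : ReflTransGen (Fr strict M τ 0) (p, 0) (q, 1) := h
    rcases ReflTransGen.cases_head h' with h1 | ⟨c, h1, h2⟩
    · simp at h1
    · obtain ⟨h3, d, h4, h5, h6⟩ := h1
      cases d
      · have := h6 rfl; simp at this
      · have h7 := h5 rfl
        rcases ReflTransGen.cases_head h2 with h8 | ⟨c', h8, h9⟩
        · subst h8
          exact mem_ext_right h4
        · have := h8.1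
          simp at h7
          omega
  · rintro ⟨s, h1, h2⟩
    have : s = p := by
      rcases ReflTransGen.cases_head h1 with h3 | ⟨c, ⟨r, _, h4⟩, h5⟩
      · exact h3.symm
      · exact absurd h4 (Set.notMem_empty _)
    subst this
    refine ReflTransGen.single ⟨le_refl _, true, h2, ?_, ?_⟩
    · intro _; rfl
    · intro h; exact absurd h (by simp)

theorem Tab_succ (τ : ℕ → Sym M.W) (m : ℕ) :
    Tab strict M τ (m + 1) = ext strict M (Tab strict M τ m) (τ (m + 1)) := by
  ext x
  obtain ⟨p, q⟩ := x
  constructor
  · intro h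
    have h' : ReflTransGen (Fr strict M τ (m + 1)) (p, m + 1) (q, m + 2) := h
    -- general claim
    have key : ∀ c : M.Q × ℕ, ReflTransGen (Fr strict M τ (m + 1)) c (q, m + 2) →
        (c.2 = m + 1 → (c.1, q) ∈ ext strict M (Tab strict M τ m) (τ (m + 1))) ∧
        (c.2 ≤ m → ∃ t, ReflTransGen (Fr strict M τ m) c (t, m + 1) ∧
          (t, q) ∈ ext strict M (Tab strict M τ m) (τ (m + 1))) := by
      intro c hc
      induction hc using ReflTransGen.head_induction_on with
      | refl => exact ⟨fun h => by simp at h, fun h => by simp at h⟩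
      | head h1 h2 ih =>
        rename_i a b
        obtain ⟨h3, d, h4, h5, h6⟩ := h1
        constructor
        · intro ha
          rw [ha] at h4
          cases d
          · have h7 := h6 rfl
            have hb : b.2 = m := by omega
            obtain ⟨t, ht, h8⟩ := ih.2 hb.le
            refine mem_ext_loop h4 ?_ h8
            show ReflTransGen _ _ _
            have : b = (b.1, m) := by rw [← hb]
            rw [this] at ht
            exact ht
          · have h7 := h5 rfl
            have hb : b.2 = m + 2 := by omega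
            rcases ReflTransGen.cases_head h2 with h8 | ⟨c', h8, h9⟩
            · subst h8
              exact mem_ext_right h4
            · have := h8.1
              omega
        · intro ha
          cases d
          · have h7 := h6 rfl
            obtain ⟨t, ht, h8⟩ := ih.2 (by omega)
            exact ⟨t, ReflTransGen.head ⟨ha, false, h4, h5, h6⟩ ht, h8⟩
          · have h7 := h5 rfl
            by_cases hb : b.2 = m + 1
            · refine ⟨b.1, ?_, ih.1 hb⟩
              have : (b.1, m + 1) = b := by rw [← hb]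
              rw [this]
              exact ReflTransGen.single ⟨ha, true, h4, h5, h6⟩
            · obtain ⟨t, ht, h8⟩ := ih.2 (by omega)
              exact ⟨t, ReflTransGen.head ⟨ha, true, h4, h5, h6⟩ ht, h8⟩
    exact (key _ h').1 rfl
  · rintro ⟨s, h1, h2⟩
    have key : ReflTransGen (Fr strict M τ (m + 1)) (p, m + 1) (s, m + 1) := by
      clear h2
      induction h1 with
      | refl => exact ReflTransGen.refl
      | tail _ h ih =>
        rename_i y z _
        obtain ⟨r, h3, h4⟩ := h
        refine ih.trans (ReflTransGen.head (b := (r, m)) ?_ (FrS.mono (Nat.le_succ m) h4))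
        exact ⟨le_refl _, false, h3, by simp, by simp⟩
    show ReflTransGen _ _ _
    refine key.trans (ReflTransGen.single ⟨le_refl _, true, h2, ?_, ?_⟩)
    · intro _; rfl
    · intro h; exact absurd h (by simp)

/-- Table automaton. -/
def nstep (strict : Prop) (M : LimAut A) (σ : Sym M.W) (x y : Set (M.Q × M.Q) × M.Q) : Prop :=
  ∃ q b d, (q, b, d) ∈ M.δ x.2 σ ∧ y.1 = ext strict M x.1 (σ.rewrite b) ∧
    (d = true → y.2 = q) ∧ (d = false → ∃ s, (q, s) ∈ x.1 ∧ (s, y.2) ∈ y.1)

/-- Runs of the table automaton on the cells `1..m` of the tape `τ`. -/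
def nreach (strict : Prop) (M : LimAut A) (τ : ℕ → Sym M.W) : ℕ → Set (M.Q × M.Q) × M.Q → Prop
  | 0, x => x = (ext strict M ∅ .lm, M.q0)
  | m + 1, x => ∃ y, nreach strict M τ m y ∧ nstep strict M (τ (m + 1)) y x

/-- The invariant of the forward direction. -/
theorem forward (w : List A) (c : Cfg M)
    (hc : ReflTransGen (Step strict w.length) (init M w) c) :
    ∃ m, m ≤ w.length + 1 ∧ (∀ i, 1 ≤ i → (i ∈ c.seen ↔ i ≤ m)) ∧
      (∀ i, m < i → c.tape i = initTape M w i) ∧ c.tape 0 = .lm ∧ c.pos ≤ m + 1 ∧
      ∀ t, ReflTransGen (Fr strict M c.tape m) (c.state, c.pos) (t, m + 1) →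
        nreach strict M (initTape M w) m (Tab strict M c.tape m, t) := by
  induction hc with
  | refl =>
    refine ⟨0, by omega, ?_, ?_, rfl, le_refl _, ?_⟩
    · intro i hi
      simp [init]; omega
    · intro i _
      rfl
    · intro t ht
      have ht' : ReflTransGen (Fr strict M (init M w).tape 0) (M.q0, 1) (t, 1) := ht
      rcases ReflTransGen.cases_head ht' with h1 | ⟨c', h1, _⟩
      · simp only [Prod.mk.injEq, and_true] at h1
        subst h1
        show _ = _
        rw [Tab_zero]
        rfl
      · have := h1.1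
        simp at this
  | tail _ hstep ih =>
    rename_i c c' _
    obtain ⟨m, hm, hseen, htape, h0, hpos, hinv⟩ := ih
    obtain ⟨hle, q, b, d, hδ, hstr, hst, ht1, ht2, hs', hr, hl⟩ := hstep
    by_cases hfr : c.pos ≤ m
    · -- frozen move
      have htt : c'.tape = c.tape := by
        by_cases hmem : c.pos ∈ c.seen
        · exact ht1 hmem
        · have hp0 : c.pos = 0 := by
            by_contra hne
            exact hmem ((hseen c.pos (by omega)).2 hfr)
          rw [ht2 hmem, hp0, h0]
          funext i
          by_cases hi : i = 0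
          · subst hi; simp [Sym.rewrite, h0]
          · simp [Function.update, hi]
      have hfz : fz strict M c.state (c.tape c.pos) q d := by
        refine ⟨b, hδ, ?_⟩
        intro hs
        by_cases hmem : c.pos ∈ c.seen
        · exact hstr hs hmem
        · have hp0 : c.pos = 0 := by
            by_contra hne
            exact hmem ((hseen c.pos (by omega)).2 hfr)
          rw [hp0, h0]; rfl
      refine ⟨m, hm, ?_, ?_, ?_, ?_, ?_⟩
      · intro i hi
        rw [hs', Set.mem_insert_iff, hseen i hi]
        constructor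
        · rintro (h | h)
          · omega
          · exact h
        · exact fun h => Or.inr h
      · intro i hi
        rw [htt]; exact htape i hi
      · rw [htt]; exact h0
      · cases d
        · have := hl rfl; omega
        · have := hr rfl; omega
      · intro t ht
        rw [htt] at ht ⊢
        apply hinv t
        refine ReflTransGen.head ⟨hfr, d, ?_, ?_, ?_⟩ ht
        · rw [hst]; exact hfz
        · exact hr
        · exact hl
    · -- first visit
      have hp : c.pos = m + 1 := by omega
      have hnot : c.pos ∉ c.seen := by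
        intro h
        have := (hseen c.pos (by omega)).1 h
        omega
      have htape' := ht2 hnot
      have hagree : ∀ i, i ≤ m → c'.tape i = c.tape i := by
        intro i hi
        rw [htape', Function.update_of_ne]
        omega
      have hnew : c'.tape (m + 1) = (initTape M w (m + 1)).rewrite b := by
        rw [htape', hp, Function.update_self, htape _ (by omega)]
      have hprev : nreach strict M (initTape M w) m (Tab strict M c.tape m, c.state) := by
        apply hinv
        rw [hp]
      have htab : Tab strict M c'.tape (m + 1) =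
          ext strict M (Tab strict M c.tape m) ((initTape M w (m + 1)).rewrite b) := by
        rw [Tab_succ, hnew, Tab.congr hagree]
      rw [hp, htape _ (by omega)] at hδ
      refine ⟨m + 1, by omega, ?_, ?_, ?_, ?_, ?_⟩
      · intro i hi
        rw [hs', Set.mem_insert_iff, hseen i hi, hp]
        omega
      · intro i hi
        rw [htape', Function.update_of_ne (by omega)]
        exact htape i (by omega)
      · rw [hagree 0 (by omega)]; exact h0
      · cases d
        · have := hl rfl; omega
        · have := hr rfl; omega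
      · intro t ht
        refine ⟨_, hprev, q, b, d, hδ, htab, ?_, ?_⟩
        · intro hd
          have h1 := hr hd
          rw [h1, hp, hst] at ht
          rcases ReflTransGen.cases_head ht with h2 | ⟨c2, h2, _⟩
          · simp only [Prod.mk.injEq, and_true] at h2
            exact h2.symm
          · have := h2.1
            simp at this
        · intro hd
          have h1 := hl hd
          have h2 : c'.pos = m := by omega
          rw [h2, hst] at ht
          obtain ⟨s, hs1, hs2⟩ := FrS.decomp ht (by simp)
          exact ⟨s, FrS.congr hagree hs1, hs2⟩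

/-- Lifting frozen moves to moves of the machine. -/
theorem lift {n m : ℕ} (hm : m ≤ n + 1) {x y : M.Q × ℕ} {τ : ℕ → Sym M.W} (h0 : τ 0 = .lm)
    (h : ReflTransGen (Fr strict M τ m) x y) (S : Set ℕ) (hS : ∀ i, 1 ≤ i → (i ∈ S ↔ i ≤ m)) :
    ∃ S' : Set ℕ, (∀ i, 1 ≤ i → (i ∈ S' ↔ i ≤ m)) ∧
      ReflTransGen (Step strict n) ⟨x.1, x.2, τ, S⟩ ⟨y.1, y.2, τ, S'⟩ := by
  induction h with
  | refl => exact ⟨S, hS, ReflTransGen.refl⟩
  | tail _ hstep ih =>
    rename_i y z _
    obtain ⟨S', hS', hr⟩ := ih
    obtain ⟨h1, d, ⟨b, h2, h3⟩, h4, h5⟩ := hstep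
    refine ⟨insert y.2 S', ?_, hr.tail ?_⟩
    · intro i hi
      rw [Set.mem_insert_iff, hS' i hi]
      constructor
      · rintro (h | h)
        · omega
        · exact h
      · exact fun h => Or.inr h
    · refine ⟨by simpa using h1.trans hm, z.1, b, d, h2, fun hs _ => h3 hs, rfl, fun _ => rfl, ?_,
        rfl, h4, h5⟩
      intro hn
      have hy0 : y.2 = 0 := by
        by_contra hne
        exact hn ((hS' y.2 (by omega)).2 h1)
      funext i
      by_cases hi : i = y.2
      · subst hi
        simp only [Function.update_self]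
        rw [hy0, h0]; rfl
      · rw [Function.update_of_ne hi]

theorem backward (w : List A) (m : ℕ) (hm : m ≤ w.length + 1) (x : Set (M.Q × M.Q) × M.Q)
    (hx : nreach strict M (initTape M w) m x) :
    ∃ (τ : ℕ → Sym M.W) (S : Set ℕ), (∀ i, 1 ≤ i → (i ∈ S ↔ i ≤ m)) ∧
      (∀ i, m < i → τ i = initTape M w i) ∧ τ 0 = .lm ∧ Tab strict M τ m = x.1 ∧
      ReflTransGen (Step strict w.length) (init M w) ⟨x.2, m + 1, τ, S⟩ := by
  induction m generalizing x with
  | zero =>
    have hx' : x = (ext strict M ∅ .lm, M.q0) := hx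
    subst hx'
    refine ⟨initTape M w, ∅, ?_, fun _ _ => rfl, rfl, ?_, ReflTransGen.refl⟩
    · intro i hi; simp; omega
    · rw [Tab_zero]; rfl
  | succ m ih =>
    obtain ⟨y, hy, q, b, d, hδ, hR, hr, hl⟩ := hx
    obtain ⟨τ, S, hS, hτ, h0, hT, hreach⟩ := ih (by omega) y hy
    set τ' : ℕ → Sym M.W := Function.update τ (m + 1) ((τ (m + 1)).rewrite b) with hτ'
    have hagree : ∀ i, i ≤ m → τ' i = τ i := by
      intro i hi
      rw [hτ', Function.update_of_ne]
      omega
    have hnew : τ' (m + 1) = (initTape M w (m + 1)).rewrite b := by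
      rw [hτ', Function.update_self, hτ _ (by omega)]
    have htab : Tab strict M τ' (m + 1) = x.1 := by
      rw [Tab_succ, hnew, Tab.congr hagree, hT, hR]
    have hnot : m + 1 ∉ S := by
      intro h
      have := (hS (m + 1) (by omega)).1 h
      omega
    have hS1 : ∀ i, 1 ≤ i → (i ∈ insert (m + 1) S ↔ i ≤ m + 1) := by
      intro i hi
      rw [Set.mem_insert_iff, hS i hi]
      omega
    have h0' : τ' 0 = .lm := by rw [hagree 0 (by omega)]; exact h0
    have hδ' : (q, b, d) ∈ M.δ y.2 (τ (m + 1)) := by rw [hτ _ (by omega)]; exact hδ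
    cases d
    · obtain ⟨s, hs1, hs2⟩ := hl rfl
      have hstep : Step strict w.length (⟨y.2, m + 1, τ, S⟩ : Cfg M)
          ⟨q, m, τ', insert (m + 1) S⟩ :=
        ⟨hm, q, b, false, hδ', fun _ h => absurd h hnot, rfl, fun h => absurd h hnot,
          fun _ => rfl, rfl, by simp, by simp⟩
      have hpath : ReflTransGen (Fr strict M τ' (m + 1)) (q, m) (x.2, m + 2) := by
        have h1 : ReflTransGen (Fr strict M τ m) (q, m) (s, m + 1) := by
          have := hs1
          rw [← hT] at this
          exact this
        have h2 : ReflTransGen (Fr strict M τ' (m + 1)) (q, m) (s, m + 1) :=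
          FrS.mono (Nat.le_succ m) (FrS.congr (fun i hi => (hagree i hi).symm) h1)
        refine h2.trans ?_
        have := hs2
        rw [← htab] at this
        exact this
      obtain ⟨S', hS', hlift⟩ := lift hm h0' hpath _ hS1
      refine ⟨τ', S', hS', ?_, h0', htab, ?_⟩
      · intro i hi
        rw [hτ', Function.update_of_ne (by omega)]
        exact hτ i (by omega)
      · exact (hreach.tail hstep).trans hlift
    · have hq := hr rfl
      have hstep : Step strict w.length (⟨y.2, m + 1, τ, S⟩ : Cfg M)
          ⟨q, m + 2, τ', insert (m + 1) S⟩ :=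
        ⟨hm, q, b, true, hδ', fun _ h => absurd h hnot, rfl, fun h => absurd h hnot,
          fun _ => rfl, rfl, by simp, by simp⟩
      refine ⟨τ', insert (m + 1) S, hS1, ?_, h0', htab, ?_⟩
      · intro i hi
        rw [hτ', Function.update_of_ne (by omega)]
        exact hτ i (by omega)
      · rw [hq]
        exact hreach.tail hstep

/-- The language of a 1-limited automaton in terms of its table automaton. -/
theorem mem_language (w : List A) :
    w ∈ M.language strict ↔ ∃ R f, nreach strict M (initTape M w) (w.length + 1) (R, f) ∧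
      f ∈ M.F := by
  constructor
  · rintro ⟨c, hc, hp, hf⟩
    obtain ⟨m, hm, _, _, _, hpos, hinv⟩ := forward w c hc
    have hm' : m = w.length + 1 := by omega
    subst hm'
    exact ⟨_, _, hinv c.state (by rw [hp]), hf⟩
  · rintro ⟨R, f, h, hf⟩
    obtain ⟨τ, S, _, _, _, _, hr⟩ := backward w (w.length + 1) le_rfl _ h
    exact ⟨_, hr, rfl, hf⟩

end Pool.Agent.H630R2.LA
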