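import Mathlib
import Pool.Agent.H630R2.LA.Tab

set_option autoImplicit false

namespace Pool.Agent.H630R2.LA

open Relation

/-- Programs for a two-way head over the tape symbols `S`.  `act f g` looks at the scanned symbol
`σ`, moves in direction `g σ` and then stops with result `b` if `f σ = some b`, and is executed
again if `f σ = none`. -/
inductive Cmd (S : Type) : Type
  | ret (b : Bool) : Cmd S
  | act (f : S → Option Bool) (g : S → Bool) : Cmd S
  | ite (c t e : Cmd S) : Cmd S

variable {S : Type}

namespace Cmd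

/-- The control states of a program: its `act` leaves. -/
def St : Cmd S → Type
  | ret _ => Empty
  | act _ _ => Unit
  | ite c t e => c.St ⊕ (t.St ⊕ e.St)

/-- The number of control states. -/
def cnt : Cmd S → ℕ
  | ret _ => 0
  | act _ _ => 1
  | ite c t e => c.cnt + (t.cnt + e.cnt)

theorem finite_St : ∀ c : Cmd S, Finite c.St
  | ret _ => inferInstanceAs (Finite Empty)
  | act _ _ => inferInstanceAs (Finite Unit)
  | ite c t e => by
    have h1 := finite_St c
    have h2 := finite_St t
    have h3 := finite_St e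
    exact inferInstanceAs (Finite (c.St ⊕ (t.St ⊕ e.St)))

instance (c : Cmd S) : Finite c.St := finite_St c

theorem card_St : ∀ c : Cmd S, Nat.card c.St = c.cnt
  | ret _ => by
    show Nat.card Empty = 0
    simp
  | act _ _ => by
    show Nat.card Unit = 1
    simp
  | ite c t e => by
    show Nat.card (c.St ⊕ (t.St ⊕ e.St)) = _
    rw [Nat.card_sum, Nat.card_sum, card_St c, card_St t, card_St e]
    rfl

/-- The first control state, or the result if there is none. -/
def entry : (c : Cmd S) → c.St ⊕ Bool
  | ret b => Sum.inr b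
  | act _ _ => Sum.inl ()
  | ite c t e => match c.entry with
    | Sum.inl s => Sum.inl (Sum.inl s)
    | Sum.inr true => t.entry.map (fun s => Sum.inr (Sum.inl s)) id
    | Sum.inr false => e.entry.map (fun s => Sum.inr (Sum.inr s)) id

/-- The next control state. -/
def next : (c : Cmd S) → c.St → S → c.St ⊕ Bool
  | ret _, s, _ => nomatch s
  | act f _, _, σ => match f σ with
    | none => Sum.inl ()
    | some b => Sum.inr b
  | ite c t e, Sum.inl s, σ => match c.next s σ with
    | Sum.inl s => Sum.inl (Sum.inl s)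
    | Sum.inr true => t.entry.map (fun s => Sum.inr (Sum.inl s)) id
    | Sum.inr false => e.entry.map (fun s => Sum.inr (Sum.inr s)) id
  | ite _ t _, Sum.inr (Sum.inl s), σ => (t.next s σ).map (fun s => Sum.inr (Sum.inl s)) id
  | ite _ _ e, Sum.inr (Sum.inr s), σ => (e.next s σ).map (fun s => Sum.inr (Sum.inr s)) id

/-- The direction of the move. -/
def dir : (c : Cmd S) → c.St → S → Bool
  | ret _, s, _ => nomatch s
  | act _ g, _, σ => g σ
  | ite c _ _, Sum.inl s, σ => c.dir s σ
  | ite _ t _, Sum.inr (Sum.inl s), σ => t.dir s σ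
  | ite _ _ e, Sum.inr (Sum.inr s), σ => e.dir s σ

/-- Big-step semantics on the tape `τ`, with the head staying in the cells `0..hi` (except for the
final position). -/
inductive Run (τ : ℕ → S) (hi : ℕ) : Cmd S → ℕ → Bool → ℕ → Prop
  | ret (b : Bool) (x : ℕ) : Run τ hi (ret b) x b x
  | stop (f : S → Option Bool) (g : S → Bool) (x y : ℕ) (b : Bool) (hx : x ≤ hi)
      (hf : f (τ x) = some b) (h1 : g (τ x) = true → y = x + 1) (h2 : g (τ x) = false → y + 1 = x) :
      Run τ hi (act f g) x b y
  | loop (f : S → Option Bool) (g : S → Bool) (x y z : ℕ) (b : Bool) (hx : x ≤ hi)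
      (hf : f (τ x) = none) (h1 : g (τ x) = true → y = x + 1) (h2 : g (τ x) = false → y + 1 = x)
      (hr : Run τ hi (act f g) y b z) : Run τ hi (act f g) x b z
  | iteT (c t e : Cmd S) (x y z : ℕ) (b : Bool) (h1 : Run τ hi c x true y)
      (h2 : Run τ hi t y b z) : Run τ hi (ite c t e) x b z
  | iteF (c t e : Cmd S) (x y z : ℕ) (b : Bool) (h1 : Run τ hi c x false y)
      (h2 : Run τ hi e y b z) : Run τ hi (ite c t e) x b z

/-- `c` started in cell `x` stops in cell `y` and decides `φ`. -/
def Decides (τ : ℕ → S) (hi : ℕ) (c : Cmd S) (x y : ℕ) (φ : Prop) : Prop :=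
  ∃ b, Run τ hi c x b y ∧ (b = true ↔ φ)

end Cmd

section impl

variable {A : Type} {strict : Prop} {M : LimAut A}

open Cmd

/-- The machine `M` executes the program `c`: `emb` gives the states for the control states and
`ex` the states in which the program is left. -/
def Impl (strict : Prop) (M : LimAut A) (c : Cmd (Sym M.W)) (emb : c.St → M.Q) (ex : Bool → M.Q) :
    Prop :=
  ∀ s σ, fz strict M (emb s) σ (Sum.elim emb ex (c.next s σ)) (c.dir s σ)

theorem Impl.run {τ : ℕ → Sym M.W} {hi : ℕ} {c : Cmd (Sym M.W)} {x y : ℕ} {b : Bool}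
    (h : Run τ hi c x b y) : ∀ (emb : c.St → M.Q) (ex : Bool → M.Q),
    Impl strict M c emb ex →
    ReflTransGen (Fr strict M τ hi) (Sum.elim emb ex c.entry, x) (ex b, y) := by
  induction h with
  | ret b x => intro emb ex _; exact ReflTransGen.refl
  | stop f g x y b hx hf h1 h2 =>
    intro emb ex hi'
    refine ReflTransGen.single ⟨hx, g (τ x), ?_, h1, h2⟩
    have h3 := hi' () (τ x)
    have h4 : (act f g).next () (τ x) = Sum.inr b := by
      simp only [next, hf]
    rw [h4] at h3
    exact h3
  | loop f g x y z b hx hf h1 h2 hr ih =>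
    intro emb ex hi'
    refine ReflTransGen.head (b := (Sum.elim emb ex (act f g).entry, y)) ⟨hx, g (τ x), ?_, h1, h2⟩
      (ih emb ex hi')
    have h3 := hi' () (τ x)
    have h4 : (act f g).next () (τ x) = Sum.inl () := by
      simp only [next, hf]
      rfl
    rw [h4] at h3
    exact h3
  | iteT c t e x y z b h1 h2 ih1 ih2 =>
    intro emb ex hi'
    let emb1 : c.St → M.Q := fun s => emb (Sum.inl s)
    let emb2 : t.St → M.Q := fun s => emb (Sum.inr (Sum.inl s))
    let emb3 : e.St → M.Q := fun s => emb (Sum.inr (Sum.inr s))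
    let ex1 : Bool → M.Q := fun b1 => match b1 with
      | true => Sum.elim emb2 ex t.entry
      | false => Sum.elim emb3 ex e.entry
    have hI1 : Impl strict M c emb1 ex1 := by
      intro s σ
      have h3 := hi' (Sum.inl s) σ
      have h4 : Sum.elim emb ex ((ite c t e).next (Sum.inl s) σ) =
          Sum.elim emb1 ex1 (c.next s σ) := by
        simp only [next]
        rcases c.next s σ with s' | (_ | _)
        · rfl
        · simp only [Sum.elim_inr, ex1]
          rcases e.entry with s'' | b'' <;> rfl
        · simp only [Sum.elim_inr, ex1]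
          rcases t.entry with s'' | b'' <;> rfl
      rw [h4] at h3
      exact h3
    have hI2 : Impl strict M t emb2 ex := by
      intro s σ
      have h3 := hi' (Sum.inr (Sum.inl s)) σ
      have h4 : Sum.elim emb ex ((ite c t e).next (Sum.inr (Sum.inl s)) σ) =
          Sum.elim emb2 ex (t.next s σ) := by
        simp only [next]
        rcases t.next s σ with s'' | b'' <;> rfl
      rw [h4] at h3
      exact h3
    have h5 : Sum.elim emb ex (ite c t e).entry = Sum.elim emb1 ex1 c.entry := by
      simp only [entry]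
      rcases c.entry with s' | (_ | _)
      · rfl
      · simp only [Sum.elim_inr, ex1]
        rcases e.entry with s'' | b'' <;> rfl
      · simp only [Sum.elim_inr, ex1]
        rcases t.entry with s'' | b'' <;> rfl
    rw [h5]
    exact (ih1 emb1 ex1 hI1).trans (ih2 emb2 ex hI2)
  | iteF c t e x y z b h1 h2 ih1 ih2 =>
    intro emb ex hi'
    let emb1 : c.St → M.Q := fun s => emb (Sum.inl s)
    let emb2 : t.St → M.Q := fun s => emb (Sum.inr (Sum.inl s))
    let emb3 : e.St → M.Q := fun s => emb (Sum.inr (Sum.inr s))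
    let ex1 : Bool → M.Q := fun b1 => match b1 with
      | true => Sum.elim emb2 ex t.entry
      | false => Sum.elim emb3 ex e.entry
    have hI1 : Impl strict M c emb1 ex1 := by
      intro s σ
      have h3 := hi' (Sum.inl s) σ
      have h4 : Sum.elim emb ex ((ite c t e).next (Sum.inl s) σ) =
          Sum.elim emb1 ex1 (c.next s σ) := by
        simp only [next]
        rcases c.next s σ with s' | (_ | _)
        · rfl
        · simp only [Sum.elim_inr, ex1]
          rcases e.entry with s'' | b'' <;> rfl
        · simp only [Sum.elim_inr, ex1]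
          rcases t.entry with s'' | b'' <;> rfl
      rw [h4] at h3
      exact h3
    have hI2 : Impl strict M e emb3 ex := by
      intro s σ
      have h3 := hi' (Sum.inr (Sum.inr s)) σ
      have h4 : Sum.elim emb ex ((ite c t e).next (Sum.inr (Sum.inr s)) σ) =
          Sum.elim emb3 ex (e.next s σ) := by
        simp only [next]
        rcases e.next s σ with s'' | b'' <;> rfl
      rw [h4] at h3
      exact h3
    have h5 : Sum.elim emb ex (ite c t e).entry = Sum.elim emb1 ex1 c.entry := by
      simp only [entry]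
      rcases c.entry with s' | (_ | _)
      · rfl
      · simp only [Sum.elim_inr, ex1]
        rcases e.entry with s'' | b'' <;> rfl
      · simp only [Sum.elim_inr, ex1]
        rcases t.entry with s'' | b'' <;> rfl
    rw [h5]
    exact (ih1 emb1 ex1 hI1).trans (ih2 emb3 ex hI2)

end impl

namespace Cmd

/-- `n` moves in direction `d`, then `c`. -/
def mvs (d : Bool) : ℕ → Cmd S → Cmd S
  | 0, c => c
  | n + 1, c => ite (act (fun _ => some true) (fun _ => d)) (mvs d n c) (ret false)

theorem cnt_mvs (d : Bool) (n : ℕ) (c : Cmd S) : (mvs d n c).cnt = n + c.cnt := by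
  induction n with
  | zero => simp [mvs]
  | succ n ih => simp only [mvs, cnt, ih]; omega

theorem run_mvs_right {τ : ℕ → S} {hi : ℕ} {c : Cmd S} {n x y : ℕ} {b : Bool}
    (hx : x + n ≤ hi + 1) (h : Run τ hi c (x + n) b y) : Run τ hi (mvs true n c) x b y := by
  induction n generalizing x with
  | zero => exact h
  | succ n ih =>
    refine Run.iteT _ _ _ x (x + 1) y b ?_ (ih (by omega) ?_)
    · exact Run.stop _ _ _ _ _ (by omega) rfl (fun _ => rfl) (fun h => absurd h (by simp))
    · have : x + 1 + n = x + (n + 1) := by omega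
      rw [this]; exact h

theorem run_mvs_left {τ : ℕ → S} {hi : ℕ} {c : Cmd S} {n x y : ℕ} {b : Bool}
    (hx : x + n ≤ hi) (h : Run τ hi c x b y) : Run τ hi (mvs false n c) (x + n) b y := by
  induction n with
  | zero => exact h
  | succ n ih =>
    refine Run.iteT _ _ _ (x + (n + 1)) (x + n) y b ?_ (ih (by omega))
    exact Run.stop _ _ _ _ _ hx rfl (fun h => absurd h (by simp)) (fun _ => rfl)

/-- Disjunction over a list. -/
def orL {ι : Type} (l : List ι) (f : ι → Cmd S) : Cmd S :=
  l.foldr (fun i acc => ite (f i) (ret true) acc) (ret false)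

theorem cnt_orL {ι : Type} (l : List ι) (f : ι → Cmd S) (s : ℕ) (h : ∀ i, (f i).cnt ≤ s) :
    (orL l f).cnt ≤ l.length * s := by
  induction l with
  | nil => simp [orL, cnt]
  | cons a l ih =>
    have h1 := h a
    simp only [orL, List.foldr, cnt, List.length_cons] at ih ⊢
    rw [Nat.add_mul]
    omega

theorem decides_orL {ι : Type} {τ : ℕ → S} {hi x : ℕ} (l : List ι) (f : ι → Cmd S)
    (φ : ι → Prop) (h : ∀ i, Decides τ hi (f i) x x (φ i)) :
    Decides τ hi (orL l f) x x (∃ i ∈ l, φ i) := by
  induction l with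
  | nil => exact ⟨false, Run.ret _ _, by simp⟩
  | cons a l ih =>
    obtain ⟨b, hb, hb'⟩ := h a
    cases b
    · obtain ⟨b', h1, h2⟩ := ih
      refine ⟨b', Run.iteF _ _ _ x x x b' hb h1, ?_⟩
      rw [h2]
      constructor
      · rintro ⟨i, hi', h3⟩
        exact ⟨i, List.mem_cons_of_mem _ hi', h3⟩
      · rintro ⟨i, hi', h3⟩
        rcases List.mem_cons.1 hi' with h4 | h4
        · subst h4
          exact absurd (hb'.2 h3) (by simp)
        · exact ⟨i, h4, h3⟩
    · refine ⟨true, Run.iteT _ _ _ x x x true hb (Run.ret _ _), ?_⟩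
      simp only [true_iff]
      exact ⟨a, List.mem_cons_self, hb'.1 rfl⟩

/-- Sequencing: run `c`, then move and report the result. -/
theorem decides_ite {τ : ℕ → S} {hi x y z : ℕ} {c t e : Cmd S} {φ ψ χ : Prop}
    (hc : Decides τ hi c x y φ) (ht : φ → Decides τ hi t y z ψ)
    (he : ¬ φ → Decides τ hi e y z χ) :
    Decides τ hi (ite c t e) x z ((φ ∧ ψ) ∨ (¬ φ ∧ χ)) := by
  obtain ⟨b, h1, h2⟩ := hc
  cases b
  · have hn : ¬ φ := fun h => absurd (h2.2 h) (by simp)
    obtain ⟨b', h3, h4⟩ := he hn
    refine ⟨b', Run.iteF _ _ _ _ _ _ _ h1 h3, ?_⟩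
    rw [h4]; tauto
  · have hp : φ := h2.1 rfl
    obtain ⟨b', h3, h4⟩ := ht hp
    refine ⟨b', Run.iteT _ _ _ _ _ _ _ h1 h3, ?_⟩
    rw [h4]; tauto

theorem Decides.congr {τ : ℕ → S} {hi x y : ℕ} {c : Cmd S} {φ ψ : Prop}
    (h : Decides τ hi c x y φ) (e : φ ↔ ψ) : Decides τ hi c x y ψ := by
  obtain ⟨b, h1, h2⟩ := h
  exact ⟨b, h1, h2.trans e⟩

theorem decides_mvs_right {τ : ℕ → S} {hi : ℕ} {c : Cmd S} {n x y : ℕ} {φ : Prop}
    (hx : x + n ≤ hi + 1) (h : Decides τ hi c (x + n) y φ) : Decides τ hi (mvs true n c) x y φ := by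
  obtain ⟨b, h1, h2⟩ := h
  exact ⟨b, run_mvs_right hx h1, h2⟩

theorem decides_mvs_left {τ : ℕ → S} {hi : ℕ} {c : Cmd S} {n x y : ℕ} {φ : Prop}
    (hx : x + n ≤ hi) (h : Decides τ hi c x y φ) : Decides τ hi (mvs false n c) (x + n) y φ := by
  obtain ⟨b, h1, h2⟩ := h
  exact ⟨b, run_mvs_left hx h1, h2⟩

theorem decides_ret (τ : ℕ → S) (hi x : ℕ) (b : Bool) : Decides τ hi (ret b) x x (b = true) :=
  ⟨b, Run.ret _ _, Iff.rfl⟩

/-- Run `c` (which returns to its starting cell), then make `n` moves to the right and report. -/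
def thenRight (c : Cmd S) (n : ℕ) : Cmd S := ite c (mvs true n (ret true)) (mvs true n (ret false))

/-- Run `c` (which returns to its starting cell), then make `n` moves to the left and report. -/
def thenLeft (c : Cmd S) (n : ℕ) : Cmd S := ite c (mvs false n (ret true)) (mvs false n (ret false))

theorem cnt_thenRight (c : Cmd S) (n : ℕ) : (thenRight c n).cnt = c.cnt + 2 * n := by
  simp only [thenRight, cnt, cnt_mvs]; omega

theorem cnt_thenLeft (c : Cmd S) (n : ℕ) : (thenLeft c n).cnt = c.cnt + 2 * n := by
  simp only [thenLeft, cnt, cnt_mvs]; omega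

theorem decides_thenRight {τ : ℕ → S} {hi x y n : ℕ} {c : Cmd S} {φ : Prop}
    (h : Decides τ hi c x y φ) (hy : y + n ≤ hi + 1) : Decides τ hi (thenRight c n) x (y + n) φ := by
  refine (decides_ite (ψ := True) (χ := False) h (fun _ => ?_) (fun _ => ?_)).congr (by tauto)
  · exact (decides_mvs_right hy (decides_ret _ _ _ _)).congr (by simp)
  · exact (decides_mvs_right hy (decides_ret _ _ _ _)).congr (by simp)

theorem decides_thenLeft {τ : ℕ → S} {hi x y n : ℕ} {c : Cmd S} {φ : Prop}
    (h : Decides τ hi c x (y + n) φ) (hy : y + n ≤ hi) : Decides τ hi (thenLeft c n) x y φ := by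
  refine (decides_ite (ψ := True) (χ := False) h (fun _ => ?_) (fun _ => ?_)).congr (by tauto)
  · exact (decides_mvs_left hy (decides_ret _ _ _ _)).congr (by simp)
  · exact (decides_mvs_left hy (decides_ret _ _ _ _)).congr (by simp)

/-- Test the scanned symbol; the head returns to the scanned cell. -/
def test (f : S → Bool) : Cmd S :=
  thenRight (act (fun σ => some (f σ)) (fun _ => false)) 1

theorem cnt_test (f : S → Bool) : (test f).cnt = 3 := by
  simp only [test, cnt_thenRight, cnt]

theorem decides_test {τ : ℕ → S} {hi x : ℕ} (f : S → Bool) (hx : 1 ≤ x) (hx' : x ≤ hi) :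
    Decides τ hi (test f) x x (f (τ x) = true) := by
  have h : Decides τ hi (act (fun σ => some (f σ)) (fun _ => false)) x (x - 1) (f (τ x) = true) :=
    ⟨f (τ x), Run.stop _ _ _ _ _ hx' rfl (fun h => absurd h (by simp)) (fun _ => by omega), Iff.rfl⟩
  have h2 := decides_thenRight (n := 1) h (by omega)
  have : x - 1 + 1 = x := by omega
  rw [this] at h2
  exact h2

end Cmd

end Pool.Agent.H630R2.LA
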