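import Mathlib
import Pool.Agent.H630R2.LA.Cmd

set_option autoImplicit false

namespace Pool.Agent.H630R2.LA

open Cmd

section path

variable {S P : Type}

/-- There is a run of length `n` from `p` to `q` reading the cells `x, x+1, ...`. -/
def path (lr : S → P → P → Bool) (τ : ℕ → S) : ℕ → ℕ → P → P → Prop
  | _, 0, p, q => p = q
  | x, n + 1, p, q => ∃ m, lr (τ x) p m = true ∧ path lr τ (x + 1) n m q

theorem path_add {lr : S → P → P → Bool} {τ : ℕ → S} {x a b : ℕ} {p q : P} :
    path lr τ x (a + b) p q ↔ ∃ m, path lr τ x a p m ∧ path lr τ (x + a) b m q := by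
  induction a generalizing x p with
  | zero => simp [path]
  | succ a ih =>
    have : a + 1 + b = (a + b) + 1 := by omega
    rw [this]
    simp only [path]
    constructor
    · rintro ⟨m, h1, h2⟩
      obtain ⟨m', h3, h4⟩ := ih.1 h2
      refine ⟨m', ⟨m, h1, h3⟩, ?_⟩
      have : x + (a + 1) = x + 1 + a := by omega
      rw [this]; exact h4
    · rintro ⟨m', ⟨m, h1, h3⟩, h4⟩
      refine ⟨m, h1, ih.2 ⟨m', h3, ?_⟩⟩
      have : x + (a + 1) = x + 1 + a := by omega
      rw [this] at h4; exact h4

variable [DecidableEq P]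

/-- Savitch's procedure as a program. -/
def reach (l : List P) (lr : S → P → P → Bool) : ℕ → ℕ → P → P → Cmd S
  | 0, n, p, q => if n = 0 then ret (decide (p = q)) else test (fun σ => lr σ p q)
  | h + 1, n, p, q => if n ≤ 2 ^ h then reach l lr h n p q else
      orL l (fun m => ite (reach l lr h (2 ^ h) p m)
        (mvs true (2 ^ h) (thenLeft (reach l lr h (n - 2 ^ h) m q) (2 ^ h))) (ret false))

theorem decides_reach {l : List P} (hl : ∀ m, m ∈ l) {lr : S → P → P → Bool} {τ : ℕ → S}
    {hi : ℕ} (h : ℕ) : ∀ (n x : ℕ) (p q : P), n ≤ 2 ^ h → 1 ≤ x → x + n ≤ hi + 1 →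
    Decides τ hi (reach l lr h n p q) x x (path lr τ x n p q) := by
  induction h with
  | zero =>
    intro n x p q hn hx hxn
    by_cases h0 : n = 0
    · subst h0
      simp only [reach, if_true]
      exact (decides_ret τ hi x _).congr (by simp [path])
    · have h1 : n = 1 := by simp at hn; omega
      subst h1
      simp only [reach, if_neg h0]
      refine (decides_test _ hx (by omega)).congr ?_
      simp [path]
  | succ h ih =>
    intro n x p q hn hx hxn
    by_cases h0 : n ≤ 2 ^ h
    · simp only [reach, if_pos h0]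
      exact ih n x p q h0 hx hxn
    · simp only [reach, if_neg h0]
      have hpow : 2 ^ (h + 1) = 2 ^ h + 2 ^ h := by ring
      have key : ∀ m, Decides τ hi (ite (reach l lr h (2 ^ h) p m)
          (mvs true (2 ^ h) (thenLeft (reach l lr h (n - 2 ^ h) m q) (2 ^ h))) (ret false)) x x
          (path lr τ x (2 ^ h) p m ∧ path lr τ (x + 2 ^ h) (n - 2 ^ h) m q) := by
        intro m
        refine (decides_ite (χ := False) (ψ := path lr τ (x + 2 ^ h) (n - 2 ^ h) m q)
          (ih (2 ^ h) x p m le_rfl hx (by omega)) (fun _ => ?_)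
          (fun _ => (decides_ret _ _ _ _).congr (by simp))).congr (by tauto)
        apply decides_mvs_right (by omega)
        apply decides_thenLeft _ (by omega)
        exact ih _ _ _ _ (by omega) (by omega) (by omega)
      refine (decides_orL l _ _ key).congr ?_
      have hn' : n = 2 ^ h + (n - 2 ^ h) := by omega
      conv_rhs => rw [hn']
      rw [path_add]
      constructor
      · rintro ⟨m, _, h1⟩; exact ⟨m, h1⟩
      · rintro ⟨m, h1⟩; exact ⟨m, hl m, h1⟩

theorem cnt_reach {l : List P} (hl : 1 ≤ l.length) {lr : S → P → P → Bool}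
    (h : ℕ) : ∀ (n : ℕ) (p q : P), (reach l lr h n p q).cnt ≤ 3 * (4 * l.length) ^ h := by
  induction h with
  | zero =>
    intro n p q
    by_cases h0 : n = 0
    · subst h0
      simp [reach, cnt]
    · simp only [reach, if_neg h0, cnt_test]
      simp
  | succ h ih =>
    intro n p q
    have hstep : 3 * (4 * l.length) ^ h ≤ 3 * (4 * l.length) ^ (h + 1) :=
      Nat.mul_le_mul_left _ (Nat.pow_le_pow_right (by omega) (by omega))
    by_cases h0 : n ≤ 2 ^ h
    · simp only [reach, if_pos h0]
      exact (ih n p q).trans hstep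
    · simp only [reach, if_neg h0]
      have h2 : 2 ^ h ≤ (4 * l.length) ^ h := Nat.pow_le_pow_left (by omega) h
      refine (cnt_orL l _ (9 * (4 * l.length) ^ h) ?_).trans ?_
      · intro m
        have h3 := ih (2 ^ h) p m
        have h4 := ih (n - 2 ^ h) m q
        simp only [cnt, cnt_mvs, cnt_thenLeft]
        omega
      · rw [pow_succ]
        nlinarith [Nat.zero_le ((4 * l.length) ^ h)]

end path

section block

variable {S : Type}

/-- Test the cell `m` cells to the right of the head, and return. -/
def chk (bit : S → Bool) (m : ℕ) : Cmd S := mvs true m (thenLeft (test bit) m)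

theorem cnt_chk (bit : S → Bool) (m : ℕ) : (chk bit m).cnt = 3 * m + 3 := by
  simp only [chk, cnt_mvs, cnt_thenLeft, cnt_test]; omega

theorem decides_chk {τ : ℕ → S} {hi x m : ℕ} (bit : S → Bool) (hx : 1 ≤ x) (hm : x + m ≤ hi) :
    Decides τ hi (chk bit m) x x (bit (τ (x + m)) = true) := by
  apply decides_mvs_right (by omega)
  apply decides_thenLeft _ hm
  exact decides_test bit (by omega) hm

/-- Is `q` reached from the set of states that is marked in the `B` cells starting with the
scanned one, by reading `n` cells? -/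
def memq (B h : ℕ) (bit : S → Bool) (lr : S → Fin B → Fin B → Bool) (n : ℕ) (q : Fin B) : Cmd S :=
  orL (List.finRange B) (fun m => ite (chk bit m.val) (reach (List.finRange B) lr h n m q)
    (ret false))

theorem decides_memq {B h : ℕ} {bit : S → Bool} {lr : S → Fin B → Fin B → Bool} {n : ℕ}
    {q : Fin B} {τ : ℕ → S} {hi x : ℕ} (hn : n ≤ 2 ^ h) (hx : 1 ≤ x) (hxn : x + n ≤ hi + 1)
    (hB : x + B ≤ hi + 1) :
    Decides τ hi (memq B h bit lr n q) x x
      (∃ m : Fin B, bit (τ (x + m.val)) = true ∧ path lr τ x n m q) := by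
  have key : ∀ m : Fin B, Decides τ hi (ite (chk bit m.val)
      (reach (List.finRange B) lr h n m q) (ret false)) x x
      (bit (τ (x + m.val)) = true ∧ path lr τ x n m q) := by
    intro m
    have hm := m.isLt
    refine (decides_ite (χ := False) (ψ := path lr τ x n m q) (decides_chk bit hx (by omega))
      (fun _ => ?_) (fun _ => (decides_ret _ _ _ _).congr (by simp))).congr (by tauto)
    exact decides_reach (fun m => List.mem_finRange m) h n x m q hn hx hxn
  refine (decides_orL _ _ _ key).congr ?_
  constructor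
  · rintro ⟨m, _, h1⟩; exact ⟨m, h1⟩
  · rintro ⟨m, h1⟩; exact ⟨m, List.mem_finRange m, h1⟩

theorem cnt_memq {B h : ℕ} (hB : 1 ≤ B) {bit : S → Bool} {lr : S → Fin B → Fin B → Bool} {n : ℕ}
    {q : Fin B} : (memq B h bit lr n q).cnt ≤ B * (3 * B + 3 * (4 * B) ^ h) := by
  refine (cnt_orL _ _ (3 * B + 3 * (4 * B) ^ h) ?_).trans (by rw [List.length_finRange])
  intro m
  have hm := m.isLt
  have h1 := cnt_reach (l := List.finRange B) (by rw [List.length_finRange]; exact hB)
    (lr := lr) h n m q
  rw [List.length_finRange] at h1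
  simp only [cnt, cnt_chk]
  omega

end block

end Pool.Agent.H630R2.LA
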