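import Mathlib
import Pool.Agent.H630R2.LA.Reach

set_option autoImplicit false

namespace Pool.Agent.H630R2.LA

open Cmd Relation

/-- Work alphabet of the deterministic machine: unvisited input letters, visited input letters
with one bit, and a dummy symbol. -/
inductive WS (A : Type) : Type
  | raw (a : A) : WS A
  | mark (a : A) (b : Bool) : WS A
  | dum : WS A

section defs

variable {A : Type} (h : ℕ) (rel : A → Fin (2 ^ h) → Fin (2 ^ h) → Bool) (p0 : Fin (2 ^ h))
  (facc : Fin (2 ^ h) → Bool)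

/-- The index in its block. -/
def ix (i : ℕ) : Fin (2 ^ h) := ⟨i % 2 ^ h, Nat.mod_lt _ (Nat.two_pow_pos h)⟩

/-- The transition relation read from a visited cell. -/
def lrel (σ : Sym (WS A)) (p q : Fin (2 ^ h)) : Bool := match σ with
  | .sym (.mark a _) => rel a p q
  | _ => false

/-- The bit of a visited cell. -/
def bitS (σ : Sym (WS A)) : Bool := match σ with
  | .sym (.mark _ b) => b
  | _ => false

/-- Is the scanned symbol the left end-marker? -/
def isLm (σ : Sym (WS A)) : Bool := match σ with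
  | .lm => true
  | _ => false

/-- The states reached after `t` letters. -/
def nr (w : List A) : ℕ → Fin (2 ^ h) → Prop
  | 0, p => p = p0
  | t + 1, q => ∃ p, nr w t p ∧ ∃ a, w[t]? = some a ∧ rel a p q = true

/-- The tape is annotated in the cells `1..t`. -/
def Ann (w : List A) (τ : ℕ → Sym (WS A)) (t : ℕ) : Prop :=
  τ 0 = .lm ∧ ∀ i < t, ∃ a b, w[i]? = some a ∧ τ (i + 1) = .sym (.mark a b) ∧
    (b = true ↔ nr h rel p0 w ((i / 2 ^ h) * 2 ^ h) (ix h i))

/-- Compute the bit of the next cell; the head is on the last visited cell, which has index `k`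
when the cells are counted from the beginning of the block (`0` for the last cell of the
previous block). -/
def mainP (k : Fin (2 ^ h)) : Cmd (Sym (WS A)) :=
  mvs false k.val (ite (act (fun σ => some (isLm σ)) isLm)
    (mvs true k.val (ret (decide (k = p0))))
    (mvs false (2 ^ h - 2) (thenRight (memq (2 ^ h) (h + 1) bitS (lrel h rel) (2 ^ h) k)
      (2 ^ h + k.val))))

/-- The same, starting one cell further left. -/
def nextP (k : Fin (2 ^ h)) : Cmd (Sym (WS A)) := mvs true 1 (mainP h rel p0 k)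

/-- Decide acceptance; the head is on the last letter. -/
def finP (k : Fin (2 ^ h)) : Cmd (Sym (WS A)) :=
  mvs false k.val (ite (act (fun σ => some (isLm σ)) isLm)
    (thenRight (orL (List.finRange (2 ^ h)) (fun f => if facc f = true then
      reach (List.finRange (2 ^ h)) (lrel h rel) (h + 1) k.val p0 f else ret false)) k.val)
    (mvs false (2 ^ h - 2) (thenRight (orL (List.finRange (2 ^ h)) (fun f => if facc f = true then
      memq (2 ^ h) (h + 1) bitS (lrel h rel) (2 ^ h + k.val) f else ret false))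
      (2 ^ h + k.val))))

end defs

section correctness

variable {A : Type} {h : ℕ} {rel : A → Fin (2 ^ h) → Fin (2 ^ h) → Bool} {p0 : Fin (2 ^ h)}
  {facc : Fin (2 ^ h) → Bool}

theorem link {w : List A} {τ : ℕ → Sym (WS A)} {t0 : ℕ} (hA : Ann h rel p0 w τ t0) (n : ℕ) :
    ∀ (t : ℕ) (q : Fin (2 ^ h)), t + n ≤ t0 →
    ((∃ p, nr h rel p0 w t p ∧ path (lrel h rel) τ (t + 1) n p q) ↔ nr h rel p0 w (t + n) q) := by
  induction n with
  | zero => intro t q _; simp [path]
  | succ n ih =>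
    intro t q ht
    have h1 := ih (t + 1) q (by omega)
    have h2 : t + (n + 1) = t + 1 + n := by omega
    rw [h2, ← h1]
    obtain ⟨a, b, ha, hτ, -⟩ := hA.2 t (by omega)
    simp only [path, nr]
    constructor
    · rintro ⟨p, hp, m, hm, hm'⟩
      refine ⟨m, ⟨p, hp, a, ha, ?_⟩, hm'⟩
      rw [hτ] at hm
      exact hm
    · rintro ⟨m, ⟨p, hp, a', ha', hr⟩, hm'⟩
      refine ⟨p, hp, m, ?_, hm'⟩
      rw [hτ]
      rw [ha] at ha'
      cases ha'
      exact hr

theorem ix_add (j : ℕ) (m : Fin (2 ^ h)) : ix h (j * 2 ^ h + m.val) = m := by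
  apply Fin.ext
  show (j * 2 ^ h + m.val) % 2 ^ h = m.val
  rw [Nat.mul_add_mod_self_right, Nat.mod_eq_of_lt m.isLt]

theorem div_add (j : ℕ) (m : Fin (2 ^ h)) : (j * 2 ^ h + m.val) / 2 ^ h = j := by
  rw [Nat.mul_comm, Nat.mul_add_div (Nat.two_pow_pos h), Nat.div_eq_of_lt m.isLt, Nat.add_zero]

theorem bit_ann {w : List A} {τ : ℕ → Sym (WS A)} {t0 : ℕ} (hA : Ann h rel p0 w τ t0) (j : ℕ)
    (m : Fin (2 ^ h)) (hm : j * 2 ^ h + m.val < t0) :
    bitS (τ (j * 2 ^ h + 1 + m.val)) = true ↔ nr h rel p0 w (j * 2 ^ h) m := by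
  obtain ⟨a, b, ha, hτ, hb⟩ := hA.2 (j * 2 ^ h + m.val) hm
  have h1 : j * 2 ^ h + 1 + m.val = j * 2 ^ h + m.val + 1 := by omega
  rw [h1, hτ]
  rw [ix_add, div_add] at hb
  exact hb

theorem mem_block {w : List A} {τ : ℕ → Sym (WS A)} {t0 : ℕ} (hA : Ann h rel p0 w τ t0) (j n : ℕ)
    (q : Fin (2 ^ h)) (hn : j * 2 ^ h + n ≤ t0) (hB : (j + 1) * 2 ^ h ≤ t0) :
    (∃ m : Fin (2 ^ h), bitS (τ (j * 2 ^ h + 1 + m.val)) = true ∧
      path (lrel h rel) τ (j * 2 ^ h + 1) n m q) ↔ nr h rel p0 w (j * 2 ^ h + n) q := by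
  rw [← link hA n (j * 2 ^ h) q hn]
  have h1 : (j + 1) * 2 ^ h = j * 2 ^ h + 2 ^ h := by ring
  constructor
  · rintro ⟨m, h2, h3⟩
    have := m.isLt
    exact ⟨m, (bit_ann hA j m (by omega)).1 h2, h3⟩
  · rintro ⟨m, h2, h3⟩
    have := m.isLt
    exact ⟨m, (bit_ann hA j m (by omega)).2 h2, h3⟩

theorem decides_lm_true {τ : ℕ → Sym (WS A)} {hi : ℕ} (h0 : τ 0 = .lm) :
    Decides τ hi (act (fun σ => some (isLm σ)) isLm) 0 1 True := by
  refine ⟨true, Run.stop _ _ _ _ _ (Nat.zero_le _) ?_ ?_ ?_, by simp⟩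
  · rw [h0]; rfl
  · intro _; rfl
  · rw [h0]; intro h; exact absurd h (by simp [isLm])

theorem decides_lm_false {τ : ℕ → Sym (WS A)} {hi x : ℕ} {a : A} {b : Bool}
    (h0 : τ (x + 1) = .sym (.mark a b)) (hx : x + 1 ≤ hi) :
    Decides τ hi (act (fun σ => some (isLm σ)) isLm) (x + 1) x False := by
  refine ⟨false, Run.stop _ _ _ _ _ hx ?_ ?_ ?_, by simp⟩
  · rw [h0]; rfl
  · rw [h0]; intro h; exact absurd h (by simp [isLm])
  · intro _; rfl

theorem decides_main (hh : 1 ≤ h) {w : List A} {τ : ℕ → Sym (WS A)} {y hi j : ℕ}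
    {k : Fin (2 ^ h)} (hA : Ann h rel p0 w τ y) (hy : y = j * 2 ^ h + k.val) (hhi : y ≤ hi) :
    Decides τ hi (mainP h rel p0 k) y (y + 1) (nr h rel p0 w (j * 2 ^ h) k) := by
  have hB : 2 ≤ 2 ^ h := by
    calc 2 = 2 ^ 1 := rfl
      _ ≤ 2 ^ h := Nat.pow_le_pow_right (by omega) hh
  have hk := k.isLt
  rw [hy]
  apply decides_mvs_left (by omega)
  rcases Nat.eq_zero_or_pos j with hj | hj
  · subst hj
    have hz : 0 * 2 ^ h = 0 := Nat.zero_mul _
    simp only [hz, Nat.zero_add]
    refine (decides_ite (φ := True) (ψ := nr h rel p0 w 0 k) (χ := False)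
      (decides_lm_true hA.1) (fun _ => ?_) (fun h => absurd trivial h)).congr (by tauto)
    have h1 : k.val + 1 = 1 + k.val := by omega
    rw [h1]
    apply decides_mvs_right (by omega)
    exact (decides_ret _ _ _ _).congr (by simp [nr])
  · obtain ⟨j', rfl⟩ : ∃ j', j = j' + 1 := ⟨j - 1, by omega⟩
    have hz : (j' + 1) * 2 ^ h = j' * 2 ^ h + 2 ^ h := by ring
    have hpos : (j' + 1) * 2 ^ h = (j' * 2 ^ h + 2 ^ h - 1) + 1 := by omega
    obtain ⟨a, b, ha, hτ, -⟩ := hA.2 (j' * 2 ^ h + 2 ^ h - 1) (by omega)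
    refine (decides_ite (φ := False) (ψ := True) (χ := nr h rel p0 w ((j' + 1) * 2 ^ h) k)
      (y := j' * 2 ^ h + 2 ^ h - 1) ?_ (fun h => absurd h (by simp)) (fun _ => ?_)).congr (by tauto)
    · rw [hpos]
      exact decides_lm_false hτ (by omega)
    · have h1 : j' * 2 ^ h + 2 ^ h - 1 = j' * 2 ^ h + 1 + (2 ^ h - 2) := by omega
      rw [h1]
      apply decides_mvs_left (by omega)
      have h2 : (j' + 1) * 2 ^ h + k.val + 1 = j' * 2 ^ h + 1 + (2 ^ h + k.val) := by omega
      rw [h2]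
      apply decides_thenRight _ (by omega)
      refine (decides_memq ?_ (by omega) (by omega) (by omega)).congr ?_
      · rw [pow_succ]; omega
      · rw [mem_block hA j' (2 ^ h) k (by omega) (by omega), ← hz]

theorem decides_fin (hh : 1 ≤ h) {w : List A} {τ : ℕ → Sym (WS A)} {y hi j : ℕ}
    {k : Fin (2 ^ h)} (hA : Ann h rel p0 w τ y) (hy : y = j * 2 ^ h + k.val) (hhi : y ≤ hi) :
    Decides τ hi (finP h rel p0 facc k) y (y + 1) (∃ f, facc f = true ∧ nr h rel p0 w y f) := by
  have hB : 2 ≤ 2 ^ h := by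
    calc 2 = 2 ^ 1 := rfl
      _ ≤ 2 ^ h := Nat.pow_le_pow_right (by omega) hh
  have hk := k.isLt
  have hpow : 2 ^ (h + 1) = 2 ^ h + 2 ^ h := by ring
  rw [hy]
  apply decides_mvs_left (by omega)
  rcases Nat.eq_zero_or_pos j with hj | hj
  · subst hj
    have hz : 0 * 2 ^ h = 0 := Nat.zero_mul _
    simp only [hz, Nat.zero_add] at hy ⊢
    refine (decides_ite (φ := True) (ψ := ∃ f, facc f = true ∧ nr h rel p0 w k.val f) (χ := False)
      (decides_lm_true hA.1) (fun _ => ?_) (fun h => absurd trivial h)).congr (by simp)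
    have h1 : k.val + 1 = 1 + k.val := by omega
    rw [h1]
    apply decides_thenRight _ (by omega)
    refine (decides_orL _ _ (fun f => facc f = true ∧ nr h rel p0 w k.val f) ?_).congr ?_
    · intro f
      by_cases hf : facc f = true
      · simp only [hf, if_true, true_and]
        refine (decides_reach (fun m => List.mem_finRange m) (h + 1) _ _ _ _ (by omega) le_rfl
          (by omega)).congr ?_
        have h2 := link hA k.val 0 f (by omega)
        simp only [Nat.zero_add] at h2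
        rw [← h2]
        simp [nr]
      · simp only [hf]
        exact (decides_ret _ _ _ _).congr (by simp)
    · constructor
      · rintro ⟨m, _, h1⟩; exact ⟨m, h1⟩
      · rintro ⟨m, h1⟩; exact ⟨m, List.mem_finRange m, h1⟩
  · obtain ⟨j', rfl⟩ : ∃ j', j = j' + 1 := ⟨j - 1, by omega⟩
    have hz : (j' + 1) * 2 ^ h = j' * 2 ^ h + 2 ^ h := by ring
    have hpos : (j' + 1) * 2 ^ h = (j' * 2 ^ h + 2 ^ h - 1) + 1 := by omega
    obtain ⟨a, b, ha, hτ, -⟩ := hA.2 (j' * 2 ^ h + 2 ^ h - 1) (by omega)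
    refine (decides_ite (φ := False) (ψ := True)
      (χ := ∃ f, facc f = true ∧ nr h rel p0 w ((j' + 1) * 2 ^ h + k.val) f)
      (y := j' * 2 ^ h + 2 ^ h - 1) ?_ (fun h => absurd h (by simp)) (fun _ => ?_)).congr (by tauto)
    · rw [hpos]
      exact decides_lm_false hτ (by omega)
    · have h1 : j' * 2 ^ h + 2 ^ h - 1 = j' * 2 ^ h + 1 + (2 ^ h - 2) := by omega
      rw [h1]
      apply decides_mvs_left (by omega)
      have h2 : (j' + 1) * 2 ^ h + k.val + 1 = j' * 2 ^ h + 1 + (2 ^ h + k.val) := by omega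
      rw [h2]
      apply decides_thenRight _ (by omega)
      refine (decides_orL _ _ (fun f => facc f = true ∧
        nr h rel p0 w ((j' + 1) * 2 ^ h + k.val) f) ?_).congr ?_
      · intro f
        by_cases hf : facc f = true
        · simp only [hf, if_true, true_and]
          refine (decides_memq (by omega) (by omega) (by omega) (by omega)).congr ?_
          rw [mem_block hA j' (2 ^ h + k.val) f (by omega) (by omega)]
          have h3 : j' * 2 ^ h + (2 ^ h + k.val) = (j' + 1) * 2 ^ h + k.val := by omega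
          rw [h3]
        · simp only [hf]
          exact (decides_ret _ _ _ _).congr (by simp)
      · constructor
        · rintro ⟨m, _, h1⟩; exact ⟨m, h1⟩
        · rintro ⟨m, h1⟩; exact ⟨m, List.mem_finRange m, h1⟩

end correctness

end Pool.Agent.H630R2.LA
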