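import Mathlib
import Pool.Agent.H630R2.LA.Machine

set_option autoImplicit false

namespace Pool.Agent.H630R2.LA

open Cmd Relation

section general

variable {A : Type} {strict : Prop} {M : LimAut A}

/-- Moves of a deterministic machine are unique. -/
theorem Step.unique (hd : M.Deterministic) {n : ℕ} {c c1 c2 : Cfg M}
    (h1 : Step strict n c c1) (h2 : Step strict n c c2) : c1 = c2 := by
  obtain ⟨_, q, b, d, hδ, _, hst, ht1, ht2, hs, hr, hl⟩ := h1
  obtain ⟨_, q', b', d', hδ', _, hst', ht1', ht2', hs', hr', hl'⟩ := h2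
  have h3 := hd _ _ hδ hδ'
  simp only [Prod.mk.injEq] at h3
  obtain ⟨rfl, rfl, rfl⟩ := h3
  obtain ⟨s1, p1, t1, e1⟩ := c1
  obtain ⟨s2, p2, t2, e2⟩ := c2
  simp only at *
  have hp : p1 = p2 := by
    cases d
    · have := hl rfl; have := hl' rfl; omega
    · have := hr rfl; have := hr' rfl; omega
  have ht : t1 = t2 := by
    by_cases hm : c.pos ∈ c.seen
    · rw [ht1 hm, ht1' hm]
    · rw [ht2 hm, ht2' hm]
  subst hst hst' hp ht hs hs'
  rfl

/-- If the machine reaches a configuration without successor which is not accepting then it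
rejects. -/
theorem not_mem_of_stuck (hd : M.Deterministic) {w : List A} {c : Cfg M}
    (hc : ReflTransGen (Step strict w.length) (init M w) c)
    (hstuck : ∀ c', ¬ Step strict w.length c c') (hpos : c.pos ≠ w.length + 2) :
    w ∉ M.language strict := by
  rintro ⟨c', hc', hp, _⟩
  have hstuck' : ∀ c'', ¬ Step strict w.length c' c'' := by
    intro c'' h
    have := h.1
    omega
  have hru : Relator.RightUnique (Step strict (M := M) w.length) :=
    fun _ _ _ h1 h2 => Step.unique hd h1 h2
  rcases ReflTransGen.total_of_right_unique hru hc hc' with h | h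
  · rcases ReflTransGen.cases_head h with h1 | ⟨c'', h1, _⟩
    · subst h1; exact hpos hp
    · exact hstuck _ h1
  · rcases ReflTransGen.cases_head h with h1 | ⟨c'', h1, _⟩
    · subst h1; exact hpos hp
    · exact hstuck' _ h1

end general

section det

variable {A : Type} (h : ℕ) (rel : A → Fin (2 ^ h) → Fin (2 ^ h) → Bool) (p0 : Fin (2 ^ h))
  (facc : Fin (2 ^ h) → Bool)

/-- The states of the deterministic machine. -/
def QS : Type :=
  (Fin (2 ^ h) × Bool) ⊕ ((Σ k : Fin (2 ^ h), (nextP h rel p0 k).St) ⊕
    ((Σ k : Fin (2 ^ h), (finP h rel p0 facc k).St) ⊕ Bool))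

/-- The head is on an unvisited cell with index `k` in its block, whose bit is `b`. -/
def wrQ (k : Fin (2 ^ h)) (b : Bool) : QS h rel p0 facc := Sum.inl (k, b)

def nxQ (k : Fin (2 ^ h)) (s : (nextP h rel p0 k).St) : QS h rel p0 facc :=
  Sum.inr (Sum.inl ⟨k, s⟩)

def fiQ (k : Fin (2 ^ h)) (s : (finP h rel p0 facc k).St) : QS h rel p0 facc :=
  Sum.inr (Sum.inr (Sum.inl ⟨k, s⟩))

def enQ (b : Bool) : QS h rel p0 facc := Sum.inr (Sum.inr (Sum.inr b))

/-- The symbol written in a visited cell: its content. -/
def keep (σ : Sym (WS A)) : WS A := match σ with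
  | .sym w => w
  | _ => .dum

/-- The moves of the deterministic machine. -/
def tr (q : QS h rel p0 facc) (σ : Sym (WS A)) : Option (QS h rel p0 facc × WS A × Bool) :=
  match q with
  | Sum.inl (k, b) => match σ with
    | .sym (.raw a) => some (Sum.elim (nxQ h rel p0 facc (ix h (k.val + 1)))
        (wrQ h rel p0 facc (ix h (k.val + 1))) (nextP h rel p0 (ix h (k.val + 1))).entry,
        .mark a b, false)
    | .rm => some (Sum.elim (fiQ h rel p0 facc k) (enQ h rel p0 facc)
        (finP h rel p0 facc k).entry, .dum, false)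
    | _ => none
  | Sum.inr (Sum.inl ⟨k, s⟩) => some (Sum.elim (nxQ h rel p0 facc k) (wrQ h rel p0 facc k)
        ((nextP h rel p0 k).next s σ), keep σ, (nextP h rel p0 k).dir s σ)
  | Sum.inr (Sum.inr (Sum.inl ⟨k, s⟩)) => some (Sum.elim (fiQ h rel p0 facc k)
        (enQ h rel p0 facc) ((finP h rel p0 facc k).next s σ), keep σ,
        (finP h rel p0 facc k).dir s σ)
  | Sum.inr (Sum.inr (Sum.inr b)) => match b, σ with
    | true, .rm => some (enQ h rel p0 facc true, .dum, true)
    | _, _ => none

theorem finite_QS : Finite (QS h rel p0 facc) := by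
  unfold QS
  infer_instance

theorem finite_WS (A : Type) [Finite A] : Finite (WS A) := by
  have : Function.Injective (fun x : WS A => (match x with
      | .raw a => some (a, none)
      | .mark a b => some (a, some b)
      | .dum => none : Option (A × Option Bool))) := by
    intro x y hxy
    cases x <;> cases y <;> simp_all
  exact Finite.of_injective _ this

/-- The deterministic machine. -/
def detM [Finite A] : LimAut A where
  Q := QS h rel p0 facc
  W := WS A
  finQ := finite_QS h rel p0 facc
  finW := finite_WS A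
  inp := WS.raw
  inp_inj := by
    intro a b hab
    cases hab
    rfl
  δ := fun q σ => {x | tr h rel p0 facc q σ = some x}
  q0 := wrQ h rel p0 facc (ix h 0) (decide (ix h 0 = p0))
  F := {enQ h rel p0 facc true}

variable [Finite A]

theorem detM_det : (detM h rel p0 facc : LimAut A).Deterministic := by
  intro q σ x hx y hy
  have h1 : tr h rel p0 facc q σ = some x := hx
  have h2 : tr h rel p0 facc q σ = some y := hy
  rw [h1] at h2
  exact Option.some.inj h2

omit [Finite A] in
theorem rewrite_keep (σ : Sym (WS A)) : σ.rewrite (keep σ) = σ := by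
  cases σ <;> rfl

variable {h rel p0 facc} {strict : Prop}

theorem impl_next (k : Fin (2 ^ h)) : Impl strict (detM h rel p0 facc : LimAut A)
    (nextP h rel p0 k) (nxQ h rel p0 facc k) (wrQ h rel p0 facc k) := by
  intro s σ
  exact ⟨keep σ, rfl, fun _ => rewrite_keep σ⟩

theorem impl_fin (k : Fin (2 ^ h)) : Impl strict (detM h rel p0 facc : LimAut A)
    (finP h rel p0 facc k) (fiQ h rel p0 facc k) (enQ h rel p0 facc) := by
  intro s σ
  exact ⟨keep σ, rfl, fun _ => rewrite_keep σ⟩

omit [Finite A] in
theorem nr_zero (w : List A) (p : Fin (2 ^ h)) : nr h rel p0 w 0 p ↔ p = p0 := Iff.rfl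

/-- The main loop. -/
theorem loop (hh : 1 ≤ h) (w : List A) (t : ℕ) (ht : t ≤ w.length) :
    ∃ (τ : ℕ → Sym (WS A)) (S : Set ℕ) (b : Bool), Ann h rel p0 w τ t ∧
      (∀ i, t < i → τ i = initTape (detM h rel p0 facc) w i) ∧
      (∀ i, 1 ≤ i → (i ∈ S ↔ i ≤ t)) ∧
      (b = true ↔ nr h rel p0 w ((t / 2 ^ h) * 2 ^ h) (ix h t)) ∧
      ReflTransGen (Step strict w.length) (init (detM h rel p0 facc) w)
        ⟨wrQ h rel p0 facc (ix h t) b, t + 1, τ, S⟩ := by
  induction t with
  | zero =>
    refine ⟨initTape (detM h rel p0 facc) w, ∅, decide (ix h 0 = p0), ⟨rfl, ?_⟩, fun _ _ => rfl,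
      ?_, ?_, ReflTransGen.refl⟩
    · intro i hi; exact absurd hi (Nat.not_lt_zero _)
    · intro i hi; simp; omega
    · rw [Nat.zero_div, Nat.zero_mul, nr_zero]
      simp
  | succ t ih =>
    obtain ⟨τ, S, b, hA, hτ, hS, hb, hreach⟩ := ih (by omega)
    have hlt : t < w.length := by omega
    have hwt : w[t]? = some w[t] := List.getElem?_eq_getElem hlt
    have hcell : τ (t + 1) = .sym (.raw w[t]) := by
      rw [hτ (t + 1) (by omega)]
      simp only [initTape, hwt]
      rfl
    set τ' : ℕ → Sym (WS A) := Function.update τ (t + 1) (.sym (.mark w[t] b)) with hτ'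
    have hagree : ∀ i, i ≤ t → τ' i = τ i := by
      intro i hi
      rw [hτ', Function.update_of_ne]
      omega
    have hnew : τ' (t + 1) = .sym (.mark w[t] b) := by
      rw [hτ', Function.update_self]
    have hA' : Ann h rel p0 w τ' (t + 1) := by
      refine ⟨by rw [hagree 0 (by omega)]; exact hA.1, ?_⟩
      intro i hi
      rcases Nat.lt_or_ge i t with h1 | h1
      · rw [hagree (i + 1) (by omega)]
        exact hA.2 i h1
      · have : i = t := by omega
        subst this
        exact ⟨w[i], b, hwt, hnew, hb⟩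
    have hnot : t + 1 ∉ S := by
      intro h
      have := (hS (t + 1) (by omega)).1 h
      omega
    have hS1 : ∀ i, 1 ≤ i → (i ∈ insert (t + 1) S ↔ i ≤ t + 1) := by
      intro i hi
      rw [Set.mem_insert_iff, hS i hi]
      omega
    have hk' : ix h ((ix h t).val + 1) = ix h (t + 1) := by
      apply Fin.ext
      show (t % 2 ^ h + 1) % 2 ^ h = (t + 1) % 2 ^ h
      rw [Nat.mod_add_mod]
    have hstep : Step strict w.length
        (⟨wrQ h rel p0 facc (ix h t) b, t + 1, τ, S⟩ : Cfg (detM h rel p0 facc))
        ⟨Sum.elim (nxQ h rel p0 facc (ix h (t + 1))) (wrQ h rel p0 facc (ix h (t + 1)))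
          (nextP h rel p0 (ix h (t + 1))).entry, t, τ', insert (t + 1) S⟩ := by
      refine ⟨by show t + 1 ≤ w.length + 1; omega, _, .mark w[t] b, false, ?_, fun _ h => absurd h hnot, rfl,
        fun h => absurd h hnot, ?_, rfl, by simp, by simp⟩
      · show tr h rel p0 facc (wrQ h rel p0 facc (ix h t) b) (τ (t + 1)) = some _
        rw [hcell]
        simp only [tr, wrQ]
        rw [hk']
        rfl
      · intro _
        show τ' = Function.update τ (t + 1) ((τ (t + 1)).rewrite (.mark w[t] b))
        rw [hcell]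
        rfl
    have hy : t + 1 = ((t + 1) / 2 ^ h) * 2 ^ h + (ix h (t + 1)).val := by
      show t + 1 = ((t + 1) / 2 ^ h) * 2 ^ h + (t + 1) % 2 ^ h
      rw [Nat.mul_comm, Nat.div_add_mod]
    obtain ⟨b', hrun, hb'⟩ := decides_main (hi := t + 1) hh hA' hy le_rfl
    have hrun' : Run τ' (t + 1) (nextP h rel p0 (ix h (t + 1))) t b' (t + 1 + 1) :=
      run_mvs_right (n := 1) (by omega) hrun
    have hpath := Impl.run (strict := strict) (M := detM h rel p0 facc) hrun' _ _
      (impl_next (facc := facc) (ix h (t + 1)))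
    obtain ⟨S', hS', hlift⟩ := lift (n := w.length) (by omega) hA'.1 hpath _ hS1
    refine ⟨τ', S', b', hA', ?_, hS', hb', (hreach.tail hstep).trans hlift⟩
    intro i hi
    rw [hτ', Function.update_of_ne (by omega)]
    exact hτ i (by omega)

/-- The language of the deterministic machine. -/
theorem detM_language (hh : 1 ≤ h) (w : List A) :
    w ∈ (detM h rel p0 facc : LimAut A).language strict ↔
      ∃ f, facc f = true ∧ nr h rel p0 w w.length f := by
  obtain ⟨τ, S, b, hA, hτ, hS, hb, hreach⟩ := loop (strict := strict) (rel := rel) (p0 := p0)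
    (facc := facc) hh w w.length le_rfl
  have hcell : τ (w.length + 1) = .rm := by
    rw [hτ (w.length + 1) (by omega)]
    simp only [initTape, List.getElem?_eq_none (le_refl w.length)]
    rfl
  have hnot : w.length + 1 ∉ S := by
    intro h
    have := (hS (w.length + 1) (by omega)).1 h
    omega
  have hS1 : ∀ i, 1 ≤ i → (i ∈ insert (w.length + 1) S ↔ i ≤ w.length + 1) := by
    intro i hi
    rw [Set.mem_insert_iff, hS i hi]
    omega
  have hstep : Step strict w.length
      (⟨wrQ h rel p0 facc (ix h w.length) b, w.length + 1, τ, S⟩ : Cfg (detM h rel p0 facc))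
      ⟨Sum.elim (fiQ h rel p0 facc (ix h w.length)) (enQ h rel p0 facc)
        (finP h rel p0 facc (ix h w.length)).entry, w.length, τ, insert (w.length + 1) S⟩ := by
    refine ⟨le_rfl, _, .dum, false, ?_, fun _ h => absurd h hnot, rfl,
      fun h => absurd h hnot, ?_, rfl, by simp, by simp⟩
    · show tr h rel p0 facc (wrQ h rel p0 facc (ix h w.length) b) (τ (w.length + 1)) = some _
      rw [hcell]
      rfl
    · intro _
      show τ = Function.update τ (w.length + 1) ((τ (w.length + 1)).rewrite .dum)
      funext i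
      by_cases hi : i = w.length + 1
      · subst hi
        rw [Function.update_self, hcell]
        rfl
      · rw [Function.update_of_ne hi]
  have hy : w.length = (w.length / 2 ^ h) * 2 ^ h + (ix h w.length).val := by
    show w.length = (w.length / 2 ^ h) * 2 ^ h + w.length % 2 ^ h
    rw [Nat.mul_comm, Nat.div_add_mod]
  obtain ⟨b', hrun, hb'⟩ := decides_fin (facc := facc) (hi := w.length + 1) hh hA hy (by omega)
  have hpath := Impl.run (strict := strict) (M := detM h rel p0 facc) hrun _ _
    (impl_fin (facc := facc) (ix h w.length))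
  obtain ⟨S', hS', hlift⟩ := lift (n := w.length) le_rfl hA.1 hpath _ hS1
  have hall := (hreach.tail hstep).trans hlift
  rw [← hb']
  cases b'
  · simp only [Bool.false_eq_true, iff_false]
    refine not_mem_of_stuck (detM_det h rel p0 facc) hall ?_ ?_
    · rintro c' ⟨_, q, b, d, hδ, _⟩
      have : tr h rel p0 facc (enQ h rel p0 facc false) (τ (w.length + 1)) = some (q, b, d) := hδ
      simp [tr, enQ] at this
    · show w.length + 1 ≠ w.length + 2
      omega
  · simp only [iff_true]
    refine ⟨⟨enQ h rel p0 facc true, w.length + 2, τ, insert (w.length + 1) S'⟩,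
      hall.tail ?_, rfl, rfl⟩
    have hin : w.length + 1 ∈ S' := (hS' _ (by omega)).2 le_rfl
    refine ⟨le_rfl, enQ h rel p0 facc true, .dum, true, ?_, ?_, rfl, fun _ => rfl,
      fun h => absurd hin h, rfl, fun _ => rfl, fun h => absurd h (by simp)⟩
    · show tr h rel p0 facc (enQ h rel p0 facc true) (τ (w.length + 1)) = some _
      rw [hcell]
      rfl
    · intro _ _
      show (τ (w.length + 1)).rewrite .dum = τ (w.length + 1)
      rw [hcell]
      rfl

end det

end Pool.Agent.H630R2.LA
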