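import Mathlib
import Pool.Agent.H630R2.LA.Det

set_option autoImplicit false

namespace Pool.Agent.H630R2.LA

open Cmd Relation

section card

theorem le_Z (h : ℕ) : 2 ^ h ≤ (4 * 2 ^ h) ^ (h + 1) := by
  have hB : 1 ≤ 2 ^ h := Nat.one_le_two_pow
  calc 2 ^ h ≤ 4 * 2 ^ h := by omega
    _ = (4 * 2 ^ h) ^ 1 := (pow_one _).symm
    _ ≤ _ := Nat.pow_le_pow_right (by omega) (by omega)

theorem arith1 (B Z k c : ℕ) (hB : 1 ≤ B) (hk : k < B) (hZ : B ≤ Z)
    (h1 : c ≤ B * (3 * B + 3 * Z)) :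
    k + (1 + (k + 0 + (B - 2 + (c + 2 * (B + k))))) ≤ 13 * B * Z := by
  have h2 : B ≤ B * Z := Nat.le_mul_of_pos_right B (by omega)
  have h3 : B * (3 * B + 3 * Z) ≤ 6 * (B * Z) := by nlinarith
  have h4 : 13 * B * Z = 13 * (B * Z) := by ring
  rw [h4]
  omega

theorem cnt_mainP {A : Type} {h : ℕ} {rel : A → Fin (2 ^ h) → Fin (2 ^ h) → Bool}
    {p0 : Fin (2 ^ h)} (k : Fin (2 ^ h)) :
    (mainP h rel p0 k).cnt ≤ 13 * 2 ^ h * (4 * 2 ^ h) ^ (h + 1) := by
  have hB : 1 ≤ 2 ^ h := Nat.one_le_two_pow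
  have hk := k.isLt
  have h1 := cnt_memq (B := 2 ^ h) (h := h + 1) hB (bit := bitS) (lr := lrel h rel)
    (n := 2 ^ h) (q := k)
  simp only [mainP, cnt_mvs, cnt, cnt_thenRight]
  exact arith1 _ _ _ _ hB hk (le_Z h) h1

theorem arith2 (B Z k c1 c2 : ℕ) (hB : 1 ≤ B) (hk : k < B) (hZ : B ≤ Z)
    (h1 : c1 ≤ B * (3 * Z)) (h2 : c2 ≤ B * (B * (3 * B + 3 * Z))) :
    k + (1 + (c1 + 2 * k + (B - 2 + (c2 + 2 * (B + k))))) ≤ 18 * (B * B) * Z := by
  have h3 : B ≤ B * Z := Nat.le_mul_of_pos_right B (by omega)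
  have h4 : B * Z ≤ B * (B * Z) := Nat.le_mul_of_pos_left _ (by omega)
  have h5 : B * (3 * B + 3 * Z) ≤ 6 * (B * Z) := by nlinarith
  have h6 : B * (B * (3 * B + 3 * Z)) ≤ 6 * (B * (B * Z)) := by
    calc B * (B * (3 * B + 3 * Z)) ≤ B * (6 * (B * Z)) := Nat.mul_le_mul_left _ h5
      _ = 6 * (B * (B * Z)) := by ring
  have h7 : 18 * (B * B) * Z = 18 * (B * (B * Z)) := by ring
  have h8 : B * (3 * Z) = 3 * (B * Z) := by ring
  rw [h7]
  rw [h8] at h1
  omega

theorem cnt_finP {A : Type} {h : ℕ} {rel : A → Fin (2 ^ h) → Fin (2 ^ h) → Bool}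
    {p0 : Fin (2 ^ h)} {facc : Fin (2 ^ h) → Bool} (k : Fin (2 ^ h)) :
    (finP h rel p0 facc k).cnt ≤ 18 * (2 ^ h * 2 ^ h) * (4 * 2 ^ h) ^ (h + 1) := by
  have hB : 1 ≤ 2 ^ h := Nat.one_le_two_pow
  have hk := k.isLt
  have hl : (List.finRange (2 ^ h)).length = 2 ^ h := List.length_finRange
  have h1 : (orL (List.finRange (2 ^ h)) (fun f => if facc f = true then
      reach (List.finRange (2 ^ h)) (lrel h rel) (h + 1) k.val p0 f else ret false)).cnt ≤
      2 ^ h * (3 * (4 * 2 ^ h) ^ (h + 1)) := by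
    refine (cnt_orL _ _ (3 * (4 * 2 ^ h) ^ (h + 1)) ?_).trans (by rw [hl])
    intro f
    by_cases hf : facc f = true
    · simp only [hf, if_true]
      have := cnt_reach (l := List.finRange (2 ^ h)) (by rw [hl]; exact hB) (lr := lrel h rel)
        (h + 1) k.val p0 f
      rw [hl] at this
      exact this
    · simp only [hf]
      exact Nat.zero_le _
  have h2 : (orL (List.finRange (2 ^ h)) (fun f => if facc f = true then
      memq (2 ^ h) (h + 1) bitS (lrel h rel) (2 ^ h + k.val) f else ret false)).cnt ≤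
      2 ^ h * (2 ^ h * (3 * 2 ^ h + 3 * (4 * 2 ^ h) ^ (h + 1))) := by
    refine (cnt_orL _ _ (2 ^ h * (3 * 2 ^ h + 3 * (4 * 2 ^ h) ^ (h + 1))) ?_).trans (by rw [hl])
    intro f
    by_cases hf : facc f = true
    · simp only [hf, if_true]
      exact cnt_memq hB
    · simp only [hf]
      exact Nat.zero_le _
  simp only [finP, cnt_mvs, cnt, cnt_thenRight]
  exact arith2 _ _ _ _ _ hB hk (le_Z h) h1 h2

theorem arith3 (B Z s1 s2 : ℕ) (hB : 1 ≤ B) (hZ : B ≤ Z)
    (h1 : s1 ≤ B * (14 * B * Z)) (h2 : s2 ≤ B * (18 * (B * B) * Z)) :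
    B * 2 + (s1 + (s2 + 2)) ≤ 64 * (B * (B * (B * Z))) := by
  have h3 : B ≤ B * Z := Nat.le_mul_of_pos_right B (by omega)
  have h4 : B * Z ≤ B * (B * Z) := Nat.le_mul_of_pos_left _ (by omega)
  have h5 : B * (B * Z) ≤ B * (B * (B * Z)) := Nat.le_mul_of_pos_left _ (by omega)
  have h6 : B * (14 * B * Z) = 14 * (B * (B * Z)) := by ring
  have h7 : B * (18 * (B * B) * Z) = 18 * (B * (B * (B * Z))) := by ring
  rw [h6] at h1
  rw [h7] at h2
  omega

theorem card_QS {A : Type} {h : ℕ} {rel : A → Fin (2 ^ h) → Fin (2 ^ h) → Bool}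
    {p0 : Fin (2 ^ h)} {facc : Fin (2 ^ h) → Bool} :
    Nat.card (QS h rel p0 facc) ≤ 2 ^ (h ^ 2 + 6 * h + 8) := by
  have hB : 1 ≤ 2 ^ h := Nat.one_le_two_pow
  have e : Nat.card (QS h rel p0 facc) = 2 ^ h * 2 +
      ((∑ k : Fin (2 ^ h), (nextP h rel p0 k).cnt) +
        ((∑ k : Fin (2 ^ h), (finP h rel p0 facc k).cnt) + 2)) := by
    unfold QS
    rw [Nat.card_sum, Nat.card_sum, Nat.card_sum, Nat.card_prod, Nat.card_sigma, Nat.card_sigma]
    simp only [card_St, Nat.card_eq_fintype_card, Fintype.card_fin, Fintype.card_bool]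
  have s1 : ∑ k : Fin (2 ^ h), (nextP h rel p0 k).cnt ≤
      2 ^ h * (14 * 2 ^ h * (4 * 2 ^ h) ^ (h + 1)) := by
    have : ∑ k : Fin (2 ^ h), (nextP h rel p0 k).cnt ≤
        ∑ _k : Fin (2 ^ h), (14 * 2 ^ h * (4 * 2 ^ h) ^ (h + 1)) := by
      apply Finset.sum_le_sum
      intro k _
      have h1 := cnt_mainP (rel := rel) (p0 := p0) k
      simp only [nextP, cnt_mvs]
      have h2 : 1 ≤ 2 ^ h * (4 * 2 ^ h) ^ (h + 1) := Nat.mul_pos hB (lt_of_lt_of_le hB (le_Z h))
      have h3 : 13 * 2 ^ h * (4 * 2 ^ h) ^ (h + 1) = 13 * (2 ^ h * (4 * 2 ^ h) ^ (h + 1)) := by ring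
      have h4 : 14 * 2 ^ h * (4 * 2 ^ h) ^ (h + 1) = 14 * (2 ^ h * (4 * 2 ^ h) ^ (h + 1)) := by ring
      omega
    refine this.trans ?_
    simp
  have s2 : ∑ k : Fin (2 ^ h), (finP h rel p0 facc k).cnt ≤
      2 ^ h * (18 * (2 ^ h * 2 ^ h) * (4 * 2 ^ h) ^ (h + 1)) := by
    have : ∑ k : Fin (2 ^ h), (finP h rel p0 facc k).cnt ≤
        ∑ _k : Fin (2 ^ h), (18 * (2 ^ h * 2 ^ h) * (4 * 2 ^ h) ^ (h + 1)) := by
      apply Finset.sum_le_sum
      intro k _
      exact cnt_finP k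
    refine this.trans ?_
    simp
  have hfin : (4 * 2 ^ h) ^ (h + 1) = 2 ^ (h ^ 2 + 3 * h + 2) := by
    have : 4 * 2 ^ h = 2 ^ (h + 2) := by ring
    rw [this, ← pow_mul]
    congr 1
    ring
  have hgoal : 2 ^ (h ^ 2 + 6 * h + 8) =
      64 * (2 ^ h * (2 ^ h * (2 ^ h * (4 * 2 ^ h) ^ (h + 1)))) := by
    rw [hfin]
    have : h ^ 2 + 6 * h + 8 = 6 + (h + (h + (h + (h ^ 2 + 3 * h + 2)))) := by ring
    rw [this, pow_add 2 6, pow_add 2 h, pow_add 2 h, pow_add 2 h]
    norm_num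
  rw [e, hgoal]
  exact arith3 _ _ _ _ hB (le_Z h) s1 s2

theorem card_Sym (W : Type) [Finite W] : Nat.card (Sym W) = Nat.card W + 2 := by
  let e : Sym W ≃ Option (Option W) :=
    { toFun := fun x => match x with
        | .lm => none
        | .rm => some none
        | .sym w => some (some w)
      invFun := fun x => match x with
        | none => .lm
        | some none => .rm
        | some (some w) => .sym w
      left_inv := by intro x; cases x <;> rfl
      right_inv := by intro x; rcases x with _ | _ | x <;> rfl }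
  rw [Nat.card_congr e, Finite.card_option, Finite.card_option]

theorem finite_Sym (W : Type) [Finite W] : Finite (Sym W) := by
  have : Function.Injective (fun x : Sym W => (match x with
      | .lm => none
      | .rm => some none
      | .sym w => some (some w) : Option (Option W))) := by
    intro x y hxy
    cases x <;> cases y <;> simp_all
  exact Finite.of_injective _ this

theorem card_WS (A : Type) [Finite A] : Nat.card (WS A) = 3 * Nat.card A + 1 := by
  let e : WS A ≃ Option (A × Option Bool) :=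
    { toFun := fun x => match x with
        | .raw a => some (a, none)
        | .mark a b => some (a, some b)
        | .dum => none
      invFun := fun x => match x with
        | some (a, none) => .raw a
        | some (a, some b) => .mark a b
        | none => .dum
      left_inv := by intro x; cases x <;> rfl
      right_inv := by intro x; rcases x with _ | ⟨a, _ | b⟩ <;> rfl }
  rw [Nat.card_congr e, Finite.card_option, Nat.card_prod, Finite.card_option]
  simp
  ring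

theorem numTrans_le {A : Type} (M : LimAut A) (hd : M.Deterministic) :
    M.numTrans ≤ Nat.card M.Q * (Nat.card M.W + 2) := by
  have := M.finQ
  have := M.finW
  have := finite_Sym M.W
  rw [← card_Sym M.W, ← Nat.card_prod]
  unfold LimAut.numTrans
  have hinj : Set.InjOn (fun t : M.Q × Sym M.W × M.Q × M.W × Bool => (t.1, t.2.1))
      {t | t.2.2 ∈ M.δ t.1 t.2.1} := by
    rintro ⟨p, σ, x⟩ hx ⟨p', σ', x'⟩ hx' h
    simp only [Prod.mk.injEq] at h
    obtain ⟨rfl, rfl⟩ := h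
    have h3 : x = x' := hd p σ hx hx'
    rw [h3]
  rw [← hinj.ncard_image, ← Set.ncard_univ]
  exact Set.ncard_le_ncard (Set.subset_univ _) (Set.toFinite _)

theorem size_detM {A : Type} [Finite A] {h : ℕ} {rel : A → Fin (2 ^ h) → Fin (2 ^ h) → Bool}
    {p0 : Fin (2 ^ h)} {facc : Fin (2 ^ h) → Bool} :
    (detM h rel p0 facc : LimAut A).size ≤ 2 ^ (h ^ 2 + 6 * h + 13) * (Nat.card A + 1) := by
  have h1 : (detM h rel p0 facc : LimAut A).numTrans ≤
      Nat.card (QS h rel p0 facc) * (Nat.card (WS A) + 2) := numTrans_le _ (detM_det h rel p0 facc)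
  have h2 := card_QS (rel := rel) (p0 := p0) (facc := facc)
  have h3 := card_WS A
  have hpos : 1 ≤ Nat.card (QS h rel p0 facc) := by
    have := finite_QS h rel p0 facc
    have : Nonempty (QS h rel p0 facc) := ⟨enQ h rel p0 facc true⟩
    exact Nat.card_pos
  have hsize : (detM h rel p0 facc : LimAut A).size = Nat.card (QS h rel p0 facc) + Nat.card A +
      (Nat.card (WS A) + 2) + 5 * (detM h rel p0 facc : LimAut A).numTrans + 1 +
      ({enQ h rel p0 facc true} : Set (QS h rel p0 facc)).ncard := rfl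
  rw [hsize, Set.ncard_singleton, h3]
  rw [h3] at h1
  have h4 : 2 ^ (h ^ 2 + 6 * h + 13) = 32 * 2 ^ (h ^ 2 + 6 * h + 8) := by
    have : h ^ 2 + 6 * h + 13 = 5 + (h ^ 2 + 6 * h + 8) := by ring
    rw [this, pow_add 2 5]
    norm_num
  rw [h4]
  generalize (detM h rel p0 facc : LimAut A).numTrans = T at *
  generalize Nat.card (QS h rel p0 facc) = q at *
  generalize 2 ^ (h ^ 2 + 6 * h + 8) = Z at *
  generalize Nat.card A = a at *
  have h5 : q * (3 * a + 1 + 2) = 3 * (q * (a + 1)) := by ring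
  rw [h5] at h1
  have h6 : a + 1 ≤ q * (a + 1) := Nat.le_mul_of_pos_left _ hpos
  have h7 : q ≤ q * (a + 1) := Nat.le_mul_of_pos_right _ (by omega)
  have h8 : q * (a + 1) ≤ Z * (a + 1) := Nat.mul_le_mul_right _ h2
  have h9 : 32 * Z * (a + 1) = 32 * (Z * (a + 1)) := by ring
  rw [h9]
  omega

end card

section simulate

variable {A : Type} {strict : Prop} {M : LimAut A}

open Classical in
/-- Every 1-limited automaton whose table automaton has at most `2 ^ h` states has an equivalent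
deterministic one. -/
theorem exists_det [Finite A] (M : LimAut A) (strict : Prop) (h : ℕ) (hh : 1 ≤ h)
    (hcard : Nat.card (Set (M.Q × M.Q) × M.Q) ≤ 2 ^ h) :
    ∃ M' : LimAut A, M'.Deterministic ∧ M'.language strict = M.language strict ∧
      M'.size ≤ 2 ^ (h ^ 2 + 6 * h + 13) * (Nat.card A + 1) := by
  have := M.finQ
  obtain ⟨e⟩ : Nonempty (Set (M.Q × M.Q) × M.Q ↪ Fin (2 ^ h)) := by
    have e1 := Finite.equivFin (Set (M.Q × M.Q) × M.Q)
    exact ⟨e1.toEmbedding.trans (Fin.castLEEmb hcard)⟩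
  let rel : A → Fin (2 ^ h) → Fin (2 ^ h) → Bool := fun a i j =>
    decide (∃ x y, e x = i ∧ e y = j ∧ nstep strict M (.sym (M.inp a)) x y)
  let p0 : Fin (2 ^ h) := e (ext strict M ∅ .lm, M.q0)
  let facc : Fin (2 ^ h) → Bool := fun i =>
    decide (∃ x y, e x = i ∧ nstep strict M .rm x y ∧ y.2 ∈ M.F)
  refine ⟨detM h rel p0 facc, detM_det h rel p0 facc, ?_, size_detM⟩
  ext w
  rw [detM_language hh, mem_language]
  have key : ∀ t, t ≤ w.length → ∀ i, nr h rel p0 w t i ↔
      ∃ x, e x = i ∧ nreach strict M (initTape M w) t x := by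
    intro t
    induction t with
    | zero =>
      intro _ i
      rw [nr_zero]
      constructor
      · rintro rfl
        exact ⟨_, rfl, rfl⟩
      · rintro ⟨x, rfl, hx⟩
        have hx' : x = (ext strict M ∅ .lm, M.q0) := hx
        rw [hx']
    | succ t ih =>
      intro ht i
      have hwt : w[t]? = some w[t] := List.getElem?_eq_getElem (by omega)
      have hcell : initTape M w (t + 1) = .sym (M.inp w[t]) := by
        simp only [initTape, hwt]
      constructor
      · rintro ⟨p, hp, a, ha, hr⟩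
        rw [hwt] at ha
        cases ha
        obtain ⟨x, hx1, hx2⟩ := (ih (by omega) p).1 hp
        have hr' := of_decide_eq_true hr
        obtain ⟨x', y, hx', hy, hs⟩ := hr'
        have : x' = x := e.injective (by rw [hx', hx1])
        subst this
        refine ⟨y, hy, x', hx2, ?_⟩
        rw [hcell]
        exact hs
      · rintro ⟨y, hy, x, hx, hs⟩
        refine ⟨e x, (ih (by omega) _).2 ⟨x, rfl, hx⟩, w[t], hwt, ?_⟩
        rw [hcell] at hs
        exact decide_eq_true ⟨x, y, rfl, hy, hs⟩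
  have hlast : initTape M w (w.length + 1) = .rm := by
    simp only [initTape, List.getElem?_eq_none (le_refl w.length)]
  constructor
  · rintro ⟨f, hf, hn⟩
    obtain ⟨x, hx1, hx2⟩ := (key _ le_rfl f).1 hn
    obtain ⟨x', y, hx', hs, hy⟩ := of_decide_eq_true hf
    have : x' = x := e.injective (by rw [hx', hx1])
    subst this
    refine ⟨y.1, y.2, ⟨x', hx2, ?_⟩, hy⟩
    rw [hlast]
    exact hs
  · rintro ⟨R, f, ⟨x, hx, hs⟩, hf⟩
    rw [hlast] at hs
    exact ⟨e x, decide_eq_true ⟨x, (R, f), rfl, hs, hf⟩, (key _ le_rfl _).2 ⟨x, rfl, hx⟩⟩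

theorem card_table (M : LimAut A) : Nat.card (Set (M.Q × M.Q) × M.Q) =
    2 ^ (Nat.card M.Q * Nat.card M.Q) * Nat.card M.Q := by
  have := M.finQ
  rw [Nat.card_prod]
  congr 1
  have : Nat.card (Set (M.Q × M.Q)) = Nat.card ((M.Q × M.Q) → Prop) := rfl
  rw [this, Nat.card_fun, Nat.card_prod]
  congr 1
  simp

/-- **Main upper bound.** Every 1-limited automaton of size `n` has an equivalent deterministic
1-limited automaton of size at most `2 ^ ((n + 2) ^ 4)`. -/
theorem upper [Finite A] (M : LimAut A) (strict : Prop) :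
    ∃ M' : LimAut A, M'.Deterministic ∧ M'.language strict = M.language strict ∧
      M'.size ≤ 2 ^ ((M.size + 2) ^ 4) := by
  have := M.finQ
  have hq : Nat.card M.Q + Nat.card A + 3 ≤ M.size := by
    unfold LimAut.size
    omega
  have hq1 : 1 ≤ Nat.card M.Q := by
    have : Nonempty M.Q := ⟨M.q0⟩
    exact Nat.card_pos
  generalize hn : M.size = n at *
  have hcard : Nat.card (Set (M.Q × M.Q) × M.Q) ≤ 2 ^ (n ^ 2) := by
    rw [card_table]
    calc 2 ^ (Nat.card M.Q * Nat.card M.Q) * Nat.card M.Q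
        ≤ 2 ^ (Nat.card M.Q * Nat.card M.Q) * 2 ^ (Nat.card M.Q) :=
          Nat.mul_le_mul_left _ (Nat.lt_two_pow_self).le
      _ = 2 ^ (Nat.card M.Q * Nat.card M.Q + Nat.card M.Q) := by rw [pow_add]
      _ ≤ 2 ^ (n ^ 2) := by
          apply Nat.pow_le_pow_right (by omega)
          nlinarith
  obtain ⟨M', h1, h2, h3⟩ := exists_det M strict (n ^ 2) (by nlinarith) hcard
  refine ⟨M', h1, h2, h3.trans ?_⟩
  have h4 : Nat.card A + 1 ≤ 2 ^ n := by
    calc Nat.card A + 1 ≤ n := by omega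
      _ ≤ 2 ^ n := (Nat.lt_two_pow_self).le
  calc 2 ^ ((n ^ 2) ^ 2 + 6 * n ^ 2 + 13) * (Nat.card A + 1)
      ≤ 2 ^ ((n ^ 2) ^ 2 + 6 * n ^ 2 + 13) * 2 ^ n := Nat.mul_le_mul_left _ h4
    _ = 2 ^ ((n ^ 2) ^ 2 + 6 * n ^ 2 + 13 + n) := by rw [pow_add 2 _ n]
    _ ≤ 2 ^ ((n + 2) ^ 4) := by
        apply Nat.pow_le_pow_right (by omega)
        nlinarith [Nat.zero_le (n ^ 3), Nat.zero_le (n ^ 2), Nat.zero_le n]

end simulate

end Pool.Agent.H630R2.LA
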