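import Mathlib
import Pool.Agent.H630R2.LA.Upper

set_option autoImplicit false

namespace Pool.Agent.H630R2.LA

open Relation

section runs

variable {A : Type} {strict : Prop} {M : LimAut A}

/-- Runs of the table automaton. -/
def runs (strict : Prop) (M : LimAut A) :
    List A → Set (M.Q × M.Q) × M.Q → Set (M.Q × M.Q) × M.Q → Prop
  | [], x, y => x = y
  | a :: l, x, y => ∃ z, nstep strict M (.sym (M.inp a)) x z ∧ runs strict M l z y

theorem runs_append (u v : List A) (x y : Set (M.Q × M.Q) × M.Q) :
    runs strict M (u ++ v) x y ↔ ∃ z, runs strict M u x z ∧ runs strict M v z y := by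
  induction u generalizing x with
  | nil => simp [runs]
  | cons a u ih =>
    simp only [List.cons_append, runs]
    constructor
    · rintro ⟨z, h1, h2⟩
      obtain ⟨z', h3, h4⟩ := (ih z).1 h2
      exact ⟨z', ⟨z, h1, h3⟩, h4⟩
    · rintro ⟨z', ⟨z, h1, h3⟩, h4⟩
      exact ⟨z, h1, (ih z).2 ⟨z', h3, h4⟩⟩

/-- The initial state of the table automaton. -/
def x0 (strict : Prop) (M : LimAut A) : Set (M.Q × M.Q) × M.Q := (ext strict M ∅ .lm, M.q0)

theorem nreach_iff_runs (w : List A) (t : ℕ) (ht : t ≤ w.length) (y : Set (M.Q × M.Q) × M.Q) :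
    nreach strict M (initTape M w) t y ↔ runs strict M (w.take t) (x0 strict M) y := by
  induction t generalizing y with
  | zero =>
    simp only [List.take_zero, runs]
    exact ⟨fun h => h.symm, fun h => h.symm⟩
  | succ t ih =>
    have hwt : w[t]? = some w[t] := List.getElem?_eq_getElem (by omega)
    have hcell : initTape M w (t + 1) = .sym (M.inp w[t]) := by
      simp only [initTape, hwt]
    have htake : w.take (t + 1) = w.take t ++ [w[t]] := by
      rw [List.take_succ_eq_append_getElem (by omega)]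
    rw [htake, runs_append]
    simp only [nreach, hcell, runs]
    constructor
    · rintro ⟨z, h1, h2⟩
      exact ⟨z, (ih (by omega) z).1 h1, y, h2, rfl⟩
    · rintro ⟨z, h1, y', h2, rfl⟩
      exact ⟨z, (ih (by omega) z).2 h1, h2⟩

/-- Accepting states of the table automaton. -/
def finX (strict : Prop) (M : LimAut A) (y : Set (M.Q × M.Q) × M.Q) : Prop :=
  ∃ z, nstep strict M .rm y z ∧ z.2 ∈ M.F

theorem mem_language_runs (w : List A) :
    w ∈ M.language strict ↔ ∃ y, runs strict M w (x0 strict M) y ∧ finX strict M y := by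
  rw [mem_language]
  have hlast : initTape M w (w.length + 1) = .rm := by
    simp only [initTape, List.getElem?_eq_none (le_refl w.length)]
  simp only [nreach, hlast]
  constructor
  · rintro ⟨R, f, ⟨y, h1, h2⟩, hf⟩
    rw [nreach_iff_runs w w.length le_rfl, List.take_length] at h1
    exact ⟨y, h1, (R, f), h2, hf⟩
  · rintro ⟨y, h1, z, h2, hf⟩
    refine ⟨z.1, z.2, ⟨y, ?_, h2⟩, hf⟩
    rw [nreach_iff_runs w w.length le_rfl, List.take_length]
    exact h1

/-- Functional tables. -/
def FT (R : Set (M.Q × M.Q)) : Prop := ∀ p q q', (p, q) ∈ R → (p, q') ∈ R → q = q'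

theorem fz_unique (hd : M.Deterministic) {p : M.Q} {σ : Sym M.W} {q q' : M.Q} {d d' : Bool}
    (h1 : fz strict M p σ q d) (h2 : fz strict M p σ q' d') : q = q' ∧ d = d' := by
  obtain ⟨b, h1, _⟩ := h1
  obtain ⟨b', h2, _⟩ := h2
  have := hd _ _ h1 h2
  simp only [Prod.mk.injEq] at this
  exact ⟨this.1, this.2.2⟩

theorem ext_FT (hd : M.Deterministic) {R : Set (M.Q × M.Q)} (hR : FT R) (σ : Sym M.W) :
    FT (ext strict M R σ) := by
  rintro p q q' ⟨s, h1, h2⟩ ⟨s', h1', h2'⟩
  have h1 : ReflTransGen (fun y z => ∃ r, fz strict M y σ r false ∧ (r, z) ∈ R) p s := h1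
  have h1' : ReflTransGen (fun y z => ∃ r, fz strict M y σ r false ∧ (r, z) ∈ R) p s' := h1'
  have hu : Relator.RightUnique (fun y z => ∃ r, fz strict M y σ r false ∧ (r, z) ∈ R) := by
    rintro x y z ⟨r, hr, hr'⟩ ⟨r', hs, hs'⟩
    have := (fz_unique hd hr hs).1
    subst this
    exact hR _ _ _ hr' hs'
  have hss : s = s' := by
    rcases ReflTransGen.total_of_right_unique hu h1 h1' with h | h
    · rcases ReflTransGen.cases_head h with h3 | ⟨c, ⟨r, hr, _⟩, _⟩
      · exact h3
      · exact absurd (fz_unique hd hr h2).2 (by simp)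
    · rcases ReflTransGen.cases_head h with h3 | ⟨c, ⟨r, hr, _⟩, _⟩
      · exact h3.symm
      · exact absurd (fz_unique hd hr h2').2 (by simp)
  subst hss
  exact (fz_unique hd h2 h2').1

theorem nstep_unique (hd : M.Deterministic) {σ : Sym M.W} {x y z : Set (M.Q × M.Q) × M.Q}
    (hx : FT x.1) (h1 : nstep strict M σ x y) (h2 : nstep strict M σ x z) :
    y = z ∧ FT y.1 := by
  obtain ⟨q, b, d, hδ, hR, hr, hl⟩ := h1
  obtain ⟨q', b', d', hδ', hR', hr', hl'⟩ := h2
  have := hd _ _ hδ hδ'
  simp only [Prod.mk.injEq] at this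
  obtain ⟨rfl, rfl, rfl⟩ := this
  have hyz : y.1 = z.1 := by rw [hR, hR']
  have hFT : FT y.1 := by rw [hR]; exact ext_FT hd hx _
  refine ⟨Prod.ext hyz ?_, hFT⟩
  cases d
  · obtain ⟨s, hs1, hs2⟩ := hl rfl
    obtain ⟨s', hs1', hs2'⟩ := hl' rfl
    have := hx _ _ _ hs1 hs1'
    subst this
    rw [← hyz] at hs2'
    exact hFT _ _ _ hs2 hs2'
  · rw [hr rfl, hr' rfl]

theorem runs_unique (hd : M.Deterministic) (u : List A) {x y z : Set (M.Q × M.Q) × M.Q}
    (hx : FT x.1) (h1 : runs strict M u x y) (h2 : runs strict M u x z) : y = z := by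
  induction u generalizing x with
  | nil => exact h1.symm.trans h2
  | cons a u ih =>
    obtain ⟨x', h3, h4⟩ := h1
    obtain ⟨x'', h5, h6⟩ := h2
    obtain ⟨h7, h8⟩ := nstep_unique hd hx h3 h5
    subst h7
    exact ih h8 h4 h6

theorem x0_FT (hd : M.Deterministic) : FT (x0 strict M).1 :=
  ext_FT hd (fun _ _ _ h => absurd h (Set.notMem_empty _)) _

open Classical in
/-- The state of the table automaton after `u`, if any. -/
noncomputable def stateOf (strict : Prop) (M : LimAut A) (u : List A) :
    Option (Set (M.Q × M.Q) × M.Q) :=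
  if h : ∃ y, runs strict M u (x0 strict M) y then some h.choose else none

theorem stateOf_eq (hd : M.Deterministic) (u : List A) (y : Set (M.Q × M.Q) × M.Q) :
    stateOf strict M u = some y ↔ runs strict M u (x0 strict M) y := by
  unfold stateOf
  constructor
  · intro h
    split_ifs at h with h1
    · simp only [Option.some.injEq] at h
      rw [← h]
      exact h1.choose_spec
  · intro h
    have h1 : ∃ y, runs strict M u (x0 strict M) y := ⟨y, h⟩
    rw [dif_pos h1]
    congr 1
    exact runs_unique hd u (x0_FT hd) h1.choose_spec h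

/-- Words with the same state are equivalent. -/
theorem nerode (hd : M.Deterministic) {u v : List A} (h : stateOf strict M u = stateOf strict M v)
    (z : List A) : u ++ z ∈ M.language strict ↔ v ++ z ∈ M.language strict := by
  have key : ∀ {u v : List A}, stateOf strict M u = stateOf strict M v →
      u ++ z ∈ M.language strict → v ++ z ∈ M.language strict := by
    intro u v h hu
    rw [mem_language_runs] at hu ⊢
    obtain ⟨y, h1, h2⟩ := hu
    rw [runs_append] at h1
    obtain ⟨x, h3, h4⟩ := h1
    rw [← stateOf_eq hd, h, stateOf_eq hd] at h3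
    exact ⟨y, (runs_append _ _ _ _).2 ⟨x, h3, h4⟩, h2⟩
  exact ⟨key h, key h.symm⟩

/-- Lower bound for deterministic machines: a family of pairwise inequivalent words indexed by the
subsets of `T` forces about `sqrt |T|` states. -/
theorem card_le_of_distinguished (hd : M.Deterministic) {T : Type} [Finite T]
    (u : Set T → List A)
    (hu : ∀ G G' : Set T, G ≠ G' → ∃ z, ¬ (u G ++ z ∈ M.language strict ↔
      u G' ++ z ∈ M.language strict)) :
    Nat.card T ≤ Nat.card M.Q * Nat.card M.Q + Nat.card M.Q := by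
  have := M.finQ
  have hinj : Function.Injective (fun G : Set T => stateOf strict M (u G)) := by
    intro G G' h
    by_contra hne
    obtain ⟨z, hz⟩ := hu G G' hne
    exact hz (nerode hd h z)
  have h1 := Nat.card_le_card_of_injective _ hinj
  rw [Finite.card_option, card_table] at h1
  have h2 : Nat.card (Set T) = 2 ^ Nat.card T := by
    have : Nat.card (Set T) = Nat.card (T → Prop) := rfl
    rw [this, Nat.card_fun]
    congr 1
    simp
  rw [h2] at h1
  have hq1 : 1 ≤ Nat.card M.Q := by
    have : Nonempty M.Q := ⟨M.q0⟩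
    exact Nat.card_pos
  generalize Nat.card M.Q = q at *
  have h3 : 2 ^ (q * q) * q + 1 ≤ 2 ^ (q * q + q) := by
    rw [pow_add]
    have h4 : q + 1 ≤ 2 ^ q := Nat.lt_two_pow_self
    have h5 : 1 ≤ 2 ^ (q * q) := Nat.one_le_two_pow
    calc 2 ^ (q * q) * q + 1 ≤ 2 ^ (q * q) * q + 2 ^ (q * q) := by omega
      _ = 2 ^ (q * q) * (q + 1) := by ring
      _ ≤ 2 ^ (q * q) * 2 ^ q := Nat.mul_le_mul_left _ h4
  exact (Nat.pow_le_pow_iff_right (by norm_num)).1 (h1.trans h3)

end runs

end Pool.Agent.H630R2.LA
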