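import Mathlib
import Pool.Agent.H630R2.LA.Nerode

set_option autoImplicit false

namespace Pool.Agent.H630R2.LA

open Relation

/-- Work symbols of the witness: a letter, or a letter with a copied bit. -/
inductive V : Type
  | raw (c : Bool) : V
  | cp (c b : Bool) : V

/-- Modes of the witness. -/
inductive Tag : Type
  | A | B | L | R (b : Bool) | V | G

/-- The moves of the witness machine with block length `n`. -/
inductive Tr (n : ℕ) : Tag → ℕ → Sym V → Tag → ℕ → V → Bool → Prop
  | A_go (i : ℕ) (c : Bool) : Tr n .A i (.sym (.raw c)) .A ((i + 1) % n) (.raw c) true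
  | A_start (c : Bool) : Tr n .A 0 (.sym (.raw c)) .B 1 (.cp c c) true
  | B_go (i : ℕ) (c : Bool) (h : i + 1 < n) : Tr n .B i (.sym (.raw c)) .B (i + 1) (.cp c c) true
  | B_end (i : ℕ) (c : Bool) (h : i + 1 = n) : Tr n .B i (.sym (.raw c)) .L (n - 2) (.cp c c) false
  | L_go (i : ℕ) (v : V) : Tr n .L (i + 1) (.sym v) .L i v false
  | L_read (c b : Bool) : Tr n .L 0 (.sym (.cp c b)) (.R b) (n - 1) (.cp c b) true
  | R_go (b : Bool) (j : ℕ) (v : V) : Tr n (.R b) (j + 1) (.sym v) (.R b) j v true
  | R_write (b c : Bool) : Tr n (.R b) 0 (.sym (.raw c)) .L (n - 2) (.cp c b) false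
  | R_end (b : Bool) : Tr n (.R b) 0 .rm .V (n - 1) (.raw false) false
  | V_go (j : ℕ) (c b : Bool) (h : c ≠ b) : Tr n .V (j + 1) (.sym (.cp c b)) .V j (.cp c b) false
  | V_end (c b : Bool) (h : c ≠ b) : Tr n .V 0 (.sym (.cp c b)) .G 0 (.cp c b) true
  | G_go (v : V) : Tr n .G 0 (.sym v) .G 0 v true
  | G_end : Tr n .G 0 .rm .G 0 (.raw false) true

theorem finite_V : Finite V := by
  have : Function.Injective (fun x : V => (match x with
      | .raw c => (c, none)
      | .cp c b => (c, some b) : Bool × Option Bool)) := by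
    intro x y hxy
    cases x <;> cases y <;> simp_all
  exact Finite.of_injective _ this

theorem card_V : Nat.card V = 6 := by
  let e : V ≃ Bool × Option Bool :=
    { toFun := fun x => match x with
        | .raw c => (c, none)
        | .cp c b => (c, some b)
      invFun := fun x => match x with
        | (c, none) => .raw c
        | (c, some b) => .cp c b
      left_inv := by intro x; cases x <;> rfl
      right_inv := by intro x; rcases x with ⟨c, _ | b⟩ <;> rfl }
  rw [Nat.card_congr e]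
  simp

/-- The encoding of the modes. -/
def tagCode : Tag → Fin 7
  | .A => 0
  | .B => 1
  | .L => 2
  | .R false => 3
  | .R true => 4
  | .V => 5
  | .G => 6

theorem tagCode_inj : Function.Injective tagCode := by
  rintro (_ | _ | _ | (_ | _) | _ | _) (_ | _ | _ | (_ | _) | _ | _) h
  all_goals first
    | rfl
    | exact absurd h (by decide)

theorem finite_Tag : Finite Tag := Finite.of_injective _ tagCode_inj

theorem card_Tag : Nat.card Tag ≤ 7 := by
  have := Nat.card_le_card_of_injective _ tagCode_inj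
  simpa using this

/-- The witness machine. -/
def witM (n : ℕ) : LimAut Bool where
  Q := Tag × Fin (n + 1)
  W := V
  finQ := by
    have := finite_Tag
    infer_instance
  finW := finite_V
  inp := V.raw
  inp_inj := by
    intro a b h
    cases h
    rfl
  δ := fun q σ => {x | Tr n q.1 q.2.val σ x.1.1 x.1.2.val x.2.1 x.2.2}
  q0 := (.A, 0)
  F := {(.G, 0)}

theorem Tr_unique {n : ℕ} {g : Tag} {i : ℕ} {σ : Sym V} {g1 g2 : Tag} {i1 i2 : ℕ} {v1 v2 : V}
    {d1 d2 : Bool} (h1 : Tr n g i σ g1 i1 v1 d1) (h2 : Tr n g i σ g2 i2 v2 d2)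
    (h3 : (g1 = .B) ↔ (g2 = .B)) : g1 = g2 ∧ i1 = i2 ∧ v1 = v2 ∧ d1 = d2 := by
  cases h1 <;> cases h2 <;> first
    | exact ⟨rfl, rfl, rfl, rfl⟩
    | (exfalso; simp at h3)

theorem numTrans_witM (n : ℕ) : (witM n).numTrans ≤ 112 * (n + 1) := by
  classical
  have hT := finite_Tag
  have hV := finite_V
  have hS := finite_Sym V
  have hcard : Nat.card (((Tag × Fin (n + 1)) × Sym V) × Bool) ≤ 112 * (n + 1) := by
    rw [Nat.card_prod, Nat.card_prod, Nat.card_prod, card_Sym, card_V]
    have := card_Tag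
    simp only [Nat.card_eq_fintype_card, Fintype.card_fin, Fintype.card_bool] at this ⊢
    nlinarith
  refine le_trans ?_ hcard
  unfold LimAut.numTrans
  have hinj : Set.InjOn (fun t : (witM n).Q × Sym (witM n).W × (witM n).Q × (witM n).W × Bool =>
      (((t.1, t.2.1), decide (t.2.2.1.1 = Tag.B)) : ((Tag × Fin (n + 1)) × Sym V) × Bool))
      {t | t.2.2 ∈ (witM n).δ t.1 t.2.1} := by
    rintro ⟨p, σ, q, v, d⟩ hx ⟨p', σ', q', v', d'⟩ hx' h
    simp only [Prod.mk.injEq, decide_eq_decide] at h
    obtain ⟨⟨rfl, rfl⟩, h3⟩ := h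
    have h4 : Tr n p.1 p.2.val σ q.1 q.2.val v d := hx
    have h5 : Tr n p.1 p.2.val σ q'.1 q'.2.val v' d' := hx'
    obtain ⟨h6, h7, h8, h9⟩ := Tr_unique h4 h5 h3
    have h10 : q = q' := Prod.ext h6 (Fin.ext h7)
    rw [h10, h8, h9]
  rw [← hinj.ncard_image, ← Set.ncard_univ]
  exact Set.ncard_le_ncard (Set.subset_univ _) (Set.toFinite _)

theorem size_witM (n : ℕ) : (witM n).size ≤ 600 * (n + 1) := by
  have h1 := numTrans_witM n
  unfold LimAut.size
  have h2 : Nat.card (witM n).Q = Nat.card Tag * (n + 1) := by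
    show Nat.card (Tag × Fin (n + 1)) = _
    rw [Nat.card_prod]
    simp
  have h3 : Nat.card (witM n).W = 6 := card_V
  have h4 : (witM n).F.ncard = 1 := Set.ncard_singleton _
  have h5 : Nat.card Bool = 2 := by simp
  have h6 := card_Tag
  rw [h2, h3, h4, h5]
  have h7 : Nat.card Tag * (n + 1) ≤ 7 * (n + 1) := Nat.mul_le_mul_right _ h6
  omega

end Pool.Agent.H630R2.LA
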