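import Mathlib
import Pool.Agent.H630R2.LA.Wit

set_option autoImplicit false

namespace Pool.Agent.H630R2.LA

open Relation

/-- The letters of `w`, as a total function. -/
def wl (w : List Bool) (t : ℕ) : Bool := w.getD t false

theorem initTape_lt (n : ℕ) (w : List Bool) (t : ℕ) (ht : t < w.length) :
    initTape (witM n) w (t + 1) = .sym (.raw (wl w t)) := by
  simp only [initTape, wl, List.getElem?_eq_getElem ht, List.getD_eq_getElem?_getD,
    Option.getD_some]
  rfl

theorem initTape_ge (n : ℕ) (w : List Bool) (t : ℕ) (ht : w.length ≤ t) :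
    initTape (witM n) w (t + 1) = .rm := by
  simp only [initTape, List.getElem?_eq_none ht]

/-- The tape after the cells `1..m` have been visited and the block after `s` has been copied. -/
def tp (n : ℕ) (w : List Bool) (s m : ℕ) : ℕ → Sym V
  | 0 => .lm
  | t + 1 => if s ≤ t ∧ t < m ∧ t < w.length then
      .sym (.cp (wl w t) (wl w (s + (t - s) % n))) else initTape (witM n) w (t + 1)

theorem tp_self (n : ℕ) (w : List Bool) (s : ℕ) : tp n w s s = initTape (witM n) w := by
  funext i
  cases i with
  | zero => rfl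
  | succ t =>
    simp only [tp]
    rw [if_neg (by omega)]

theorem tp_succ (n : ℕ) (w : List Bool) (s m : ℕ) (h1 : s ≤ m) (h2 : m < w.length) :
    Function.update (tp n w s m) (m + 1) (.sym (.cp (wl w m) (wl w (s + (m - s) % n)))) =
      tp n w s (m + 1) := by
  funext i
  by_cases hi : i = m + 1
  · subst hi
    rw [Function.update_self]
    simp only [tp]
    rw [if_pos (by omega)]
  · rw [Function.update_of_ne hi]
    cases i with
    | zero => rfl
    | succ t =>
      simp only [tp]
      by_cases h : s ≤ t ∧ t < m ∧ t < w.length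
      · rw [if_pos h, if_pos (by omega)]
      · rw [if_neg h, if_neg (by omega)]

theorem tp_raw (n : ℕ) (w : List Bool) (s m : ℕ) (h2 : m < w.length) :
    tp n w s m (m + 1) = .sym (.raw (wl w m)) := by
  simp only [tp]
  rw [if_neg (by omega)]
  exact initTape_lt n w m h2

theorem tp_rm (n : ℕ) (w : List Bool) (s m : ℕ) (h2 : w.length ≤ m) :
    tp n w s m (m + 1) = .rm := by
  simp only [tp]
  rw [if_neg (by omega)]
  exact initTape_ge n w m h2

theorem tp_cp (n : ℕ) (w : List Bool) (s m t : ℕ) (h1 : s ≤ t) (h2 : t < m)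
    (h3 : t < w.length) :
    tp n w s m (t + 1) = .sym (.cp (wl w t) (wl w (s + (t - s) % n))) := by
  simp only [tp]
  rw [if_pos ⟨h1, h2, h3⟩]

/-- The set of visited cells. -/
def sn (m : ℕ) : Set ℕ := {i | 1 ≤ i ∧ i ≤ m}

theorem sn_insert_mem (m i : ℕ) (h1 : 1 ≤ i) (h2 : i ≤ m) : insert i (sn m) = sn m := by
  ext j
  simp only [sn, Set.mem_insert_iff, Set.mem_ofPred_eq]
  omega

theorem sn_insert_succ (m : ℕ) : insert (m + 1) (sn m) = sn (m + 1) := by
  ext j
  simp only [sn, Set.mem_insert_iff, Set.mem_ofPred_eq]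
  omega

theorem mem_sn (m i : ℕ) (h1 : 1 ≤ i) (h2 : i ≤ m) : i ∈ sn m := ⟨h1, h2⟩

theorem succ_notMem_sn (m : ℕ) : m + 1 ∉ sn m := by
  simp only [sn, Set.mem_ofPred_eq]
  omega

/-- The invariant of the computations of the witness. -/
def Inv (n : ℕ) (w : List Bool) (g : Tag) (i pos : ℕ) (τ : ℕ → Sym V) (S : Set ℕ) : Prop :=
  match g with
  | .A => ∃ m, m ≤ w.length ∧ m % n = i ∧ pos = m + 1 ∧ τ = initTape (witM n) w ∧ S = sn m
  | .B => ∃ s m, s % n = 0 ∧ m = s + i ∧ 1 ≤ i ∧ i < n ∧ m ≤ w.length ∧ pos = m + 1 ∧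
      τ = tp n w s m ∧ S = sn m
  | .L => ∃ s m, s % n = 0 ∧ s + n ≤ m ∧ m ≤ w.length ∧ pos + n = m + 1 + i ∧ i + 2 ≤ n ∧
      τ = tp n w s m ∧ S = sn m
  | .R b => ∃ s m, s % n = 0 ∧ s + n ≤ m ∧ m ≤ w.length ∧ pos + i = m + 1 ∧ i + 1 ≤ n ∧
      b = wl w (s + (m - s) % n) ∧ τ = tp n w s m ∧ S = sn m
  | .V => ∃ s, s % n = 0 ∧ s + n ≤ w.length ∧ pos + n = w.length + 1 + i ∧ i + 1 ≤ n ∧
      τ = tp n w s w.length ∧ S = sn (w.length + 1) ∧
      ∀ t, pos ≤ t → t < w.length → wl w t ≠ wl w (s + (t - s) % n)
  | .G => ∃ s, s % n = 0 ∧ s + n ≤ w.length ∧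
      ∀ t, w.length ≤ t + n → t < w.length → wl w t ≠ wl w (s + (t - s) % n)

theorem inv_step {n : ℕ} (hn : 2 ≤ n) {w : List Bool} {g g' : Tag} {i i' pos pos' : ℕ}
    {τ τ' : ℕ → Sym V} {S S' : Set ℕ} {σ : Sym V} {b : V} {d : Bool}
    (hI : Inv n w g i pos τ S) (hσ : τ pos = σ) (hT : Tr n g i σ g' i' b d)
    (ht1 : pos ∈ S → τ' = τ) (ht2 : pos ∉ S → τ' = Function.update τ pos (σ.rewrite b))
    (hS : S' = insert pos S) (hr : d = true → pos' = pos + 1) (hl : d = false → pos' + 1 = pos) :
    Inv n w g' i' pos' τ' S' := by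
  cases hT with
  | A_go i c =>
    obtain ⟨m, h1, h2, rfl, rfl, rfl⟩ := hI
    have hm : m < w.length := by
      by_contra h
      rw [initTape_ge n w m (by omega)] at hσ
      cases hσ
    rw [initTape_lt n w m hm] at hσ
    cases hσ
    refine ⟨m + 1, hm, ?_, hr rfl, ?_, ?_⟩
    · rw [← h2, Nat.mod_add_mod]
    · rw [ht2 (succ_notMem_sn m)]
      funext j
      by_cases hj : j = m + 1
      · subst hj
        rw [Function.update_self, initTape_lt n w m hm]
        rfl
      · rw [Function.update_of_ne hj]
    · rw [hS, sn_insert_succ]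
  | A_start c =>
    obtain ⟨m, h1, h2, rfl, rfl, rfl⟩ := hI
    have hm : m < w.length := by
      by_contra h
      rw [initTape_ge n w m (by omega)] at hσ
      cases hσ
    rw [initTape_lt n w m hm] at hσ
    cases hσ
    refine ⟨m, m + 1, h2, rfl, le_rfl, hn, hm, hr rfl, ?_, ?_⟩
    · rw [ht2 (succ_notMem_sn m), ← tp_succ n w m m le_rfl hm, tp_self]
      simp [Sym.rewrite]
    · rw [hS, sn_insert_succ]
  | B_go i c hc =>
    obtain ⟨s, m, h1, h2, h3, h4, h5, rfl, rfl, rfl⟩ := hI
    have hm : m < w.length := by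
      by_contra h
      rw [tp_rm n w s m (by omega)] at hσ
      cases hσ
    rw [tp_raw n w s m hm] at hσ
    cases hσ
    refine ⟨s, m + 1, h1, by omega, by omega, hc, hm, hr rfl, ?_, ?_⟩
    · rw [ht2 (succ_notMem_sn m), ← tp_succ n w s m (by omega) hm]
      have : s + (m - s) % n = m := by
        rw [Nat.mod_eq_of_lt (by omega)]; omega
      rw [this]
      rfl
    · rw [hS, sn_insert_succ]
  | B_end i c hc =>
    obtain ⟨s, m, h1, h2, h3, h4, h5, rfl, rfl, rfl⟩ := hI
    have hm : m < w.length := by
      by_contra h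
      rw [tp_rm n w s m (by omega)] at hσ
      cases hσ
    rw [tp_raw n w s m hm] at hσ
    cases hσ
    have hp := hl rfl
    refine ⟨s, m + 1, h1, by omega, hm, by omega, by omega, ?_, ?_⟩
    · rw [ht2 (succ_notMem_sn m), ← tp_succ n w s m (by omega) hm]
      have : s + (m - s) % n = m := by
        rw [Nat.mod_eq_of_lt (by omega)]; omega
      rw [this]
      rfl
    · rw [hS, sn_insert_succ]
  | L_go i v =>
    obtain ⟨s, m, h1, h2, h3, h4, h5, rfl, rfl⟩ := hI
    have hp := hl rfl
    have hmem := mem_sn m pos (by omega) (by omega)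
    refine ⟨s, m, h1, h2, h3, by omega, by omega, ht1 hmem, ?_⟩
    rw [hS, sn_insert_mem m pos (by omega) (by omega)]
  | L_read c b =>
    obtain ⟨s, m, h1, h2, h3, h4, h5, rfl, rfl⟩ := hI
    have hp := hr rfl
    have hmem := mem_sn m pos (by omega) (by omega)
    have hpos : pos = (m - n) + 1 := by omega
    rw [hpos, tp_cp n w s m (m - n) (by omega) (by omega) (by omega)] at hσ
    cases hσ
    refine ⟨s, m, h1, h2, h3, by omega, by omega, ?_, ht1 hmem, ?_⟩
    · have : m - s = (m - n - s) + n := by omega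
      rw [this, Nat.add_mod_right]
    · rw [hS, sn_insert_mem m pos (by omega) (by omega)]
  | R_go b j v =>
    obtain ⟨s, m, h1, h2, h3, h4, h5, h6, rfl, rfl⟩ := hI
    have hp := hr rfl
    have hmem := mem_sn m pos (by omega) (by omega)
    refine ⟨s, m, h1, h2, h3, by omega, by omega, h6, ht1 hmem, ?_⟩
    rw [hS, sn_insert_mem m pos (by omega) (by omega)]
  | R_write b c =>
    obtain ⟨s, m, h1, h2, h3, h4, h5, h6, rfl, rfl⟩ := hI
    have hp := hl rfl
    have hpos : pos = m + 1 := by omega
    subst hpos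
    have hm : m < w.length := by
      by_contra h
      rw [tp_rm n w s m (by omega)] at hσ
      cases hσ
    rw [tp_raw n w s m hm] at hσ
    cases hσ
    refine ⟨s, m + 1, h1, by omega, hm, by omega, by omega, ?_, ?_⟩
    · rw [ht2 (succ_notMem_sn m), ← tp_succ n w s m (by omega) hm, h6]
      rfl
    · rw [hS, sn_insert_succ]
  | R_end b =>
    obtain ⟨s, m, h1, h2, h3, h4, h5, h6, rfl, rfl⟩ := hI
    have hp := hl rfl
    have hpos : pos = m + 1 := by omega
    subst hpos
    have hm : m = w.length := by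
      by_contra h
      rw [tp_raw n w s m (by omega)] at hσ
      cases hσ
    subst hm
    refine ⟨s, h1, h2, by omega, by omega, ?_, ?_, ?_⟩
    · rw [ht2 (succ_notMem_sn _)]
      funext j
      by_cases hj : j = w.length + 1
      · subst hj
        rw [Function.update_self, hσ]
        rfl
      · rw [Function.update_of_ne hj]
    · rw [hS, sn_insert_succ]
    · intro t h7 h8
      omega
  | V_go j c b hc =>
    obtain ⟨s, h1, h2, h3, h4, rfl, rfl, h5⟩ := hI
    have hp := hl rfl
    have hmem := mem_sn (w.length + 1) pos (by omega) (by omega)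
    obtain ⟨t0, rfl⟩ : ∃ t0, pos = t0 + 1 := ⟨pos - 1, by omega⟩
    rw [tp_cp n w s w.length t0 (by omega) (by omega) (by omega)] at hσ
    cases hσ
    refine ⟨s, h1, h2, by omega, by omega, ht1 hmem, ?_, ?_⟩
    · rw [hS, sn_insert_mem _ _ (by omega) (by omega)]
    · intro t h7 h8
      rcases Nat.eq_or_lt_of_le h7 with h9 | h9
      · have : t = t0 := by omega
        subst this
        exact hc
      · exact h5 t (by omega) h8
  | V_end c b hc =>
    obtain ⟨s, h1, h2, h3, h4, rfl, rfl, h5⟩ := hI
    obtain ⟨t0, rfl⟩ : ∃ t0, pos = t0 + 1 := ⟨pos - 1, by omega⟩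
    rw [tp_cp n w s w.length t0 (by omega) (by omega) (by omega)] at hσ
    cases hσ
    refine ⟨s, h1, h2, ?_⟩
    intro t h7 h8
    by_cases h9 : t = t0
    · subst h9
      exact hc
    · exact h5 t (by omega) h8
  | G_go v => exact hI
  | G_end => exact hI

theorem sound {n : ℕ} (hn : 2 ≤ n) {strict : Prop} {w : List Bool}
    (hw : w ∈ (witM n).language strict) :
    ∃ s, s % n = 0 ∧ s + n ≤ w.length ∧
      ∀ t, w.length ≤ t + n → t < w.length → wl w t ≠ wl w (s + (t - s) % n) := by
  obtain ⟨c, hc, hpos, hF⟩ := hw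
  have key : ∀ c : Cfg (witM n), ReflTransGen (Step strict w.length) (init (witM n) w) c →
      Inv n w c.state.1 c.state.2.val c.pos c.tape c.seen := by
    intro c hc
    induction hc with
    | refl =>
      refine ⟨0, Nat.zero_le _, by simp [init, witM], rfl, rfl, ?_⟩
      ext i
      simp only [init, sn, Set.mem_empty_iff_false, Set.mem_ofPred_eq, false_iff]
      omega
    | tail _ hstep ih =>
      obtain ⟨_, q, b, d, hδ, _, hst, ht1, ht2, hs, hr, hl⟩ := hstep
      rw [hst]
      exact inv_step hn ih rfl hδ ht1 ht2 hs hr hl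
  have h := key c hc
  have hF' : c.state = ((.G, 0) : Tag × Fin (n + 1)) := hF
  rw [hF'] at h
  exact h

/-- Canonical configurations. -/
def cf (n : ℕ) (w : List Bool) (g : Tag) (i : Fin (n + 1)) (pos s m m' : ℕ) : Cfg (witM n) :=
  ⟨(g, i), pos, tp n w s m, sn m'⟩

section complete

variable {n : ℕ} {strict : Prop} {w : List Bool}

theorem step_old {g g' : Tag} {i i' : Fin (n + 1)} {pos pos' s m m' : ℕ} {v : V} {d : Bool}
    (h1 : 1 ≤ pos) (h2 : pos ≤ m') (h3 : pos ≤ w.length + 1)
    (hT : Tr n g i.val (tp n w s m pos) g' i'.val v d)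
    (hv : (tp n w s m pos).rewrite v = tp n w s m pos)
    (hr : d = true → pos' = pos + 1) (hl : d = false → pos' + 1 = pos) :
    Step strict w.length (cf n w g i pos s m m') (cf n w g' i' pos' s m m') := by
  have hmem := mem_sn m' pos h1 h2
  refine ⟨h3, (g', i'), v, d, hT, fun _ _ => hv, rfl, fun _ => rfl, fun h => absurd hmem h, ?_,
    hr, hl⟩
  show sn m' = insert pos (sn m')
  rw [sn_insert_mem m' pos h1 h2]

theorem step_new {g g' : Tag} {i i' : Fin (n + 1)} {pos' s m : ℕ} {c b : Bool} {d : Bool}
    (h2 : s ≤ m) (h3 : m < w.length)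
    (hT : Tr n g i.val (.sym (.raw (wl w m))) g' i'.val (.cp c b) d)
    (hc : c = wl w m) (hb : b = wl w (s + (m - s) % n))
    (hr : d = true → pos' = m + 2) (hl : d = false → pos' = m) :
    Step strict w.length (cf n w g i (m + 1) s m m) (cf n w g' i' pos' s (m + 1) (m + 1)) := by
  have hn := succ_notMem_sn m
  refine ⟨by show m + 1 ≤ _; omega, (g', i'), .cp c b, d, ?_, fun _ h => absurd h hn, rfl,
    fun h => absurd h hn, ?_, ?_, ?_, ?_⟩
  · show Tr n g i.val (tp n w s m (m + 1)) g' i'.val (.cp c b) d
    rw [tp_raw n w s m h3]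
    exact hT
  · intro _
    show tp n w s (m + 1) = Function.update (tp n w s m) (m + 1)
      ((tp n w s m (m + 1)).rewrite (.cp c b))
    rw [tp_raw n w s m h3, ← tp_succ n w s m h2 h3, hc, hb]
    rfl
  · show sn (m + 1) = insert (m + 1) (sn m)
    rw [sn_insert_succ]
  · intro h; rw [show (cf n w g' i' pos' s (m + 1) (m + 1)).pos = pos' from rfl, hr h]; rfl
  · intro h; rw [show (cf n w g' i' pos' s (m + 1) (m + 1)).pos = pos' from rfl, hl h]; rfl

theorem runA (hn : 2 ≤ n) (s : ℕ) (m : ℕ) (hm : m ≤ w.length) (hms : m ≤ s) :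
    ReflTransGen (Step strict w.length) (init (witM n) w)
      ⟨(.A, ⟨m % n, by have := Nat.mod_lt m (show 0 < n by omega); omega⟩), m + 1,
        initTape (witM n) w, sn m⟩ := by
  induction m with
  | zero =>
    have h1 : sn 0 = ∅ := by
      ext i
      simp only [sn, Set.mem_empty_iff_false, Set.mem_ofPred_eq, iff_false]
      omega
    rw [h1]
    have h2 : (⟨0 % n, by have := Nat.mod_lt 0 (show 0 < n by omega); omega⟩ : Fin (n + 1)) = 0 :=
      Fin.ext (by simp)
    rw [h2]
    exact ReflTransGen.refl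
  | succ m ih =>
    refine (ih (by omega) (by omega)).tail ?_
    have hn' := succ_notMem_sn m
    refine ⟨by show m + 1 ≤ _; omega, _, .raw (wl w m), true, ?_, fun _ h => absurd h hn', rfl,
      fun h => absurd h hn', ?_, ?_, fun _ => rfl, fun h => absurd h (by simp)⟩
    · show Tr n .A (m % n) (initTape (witM n) w (m + 1)) .A ((m + 1) % n) (.raw (wl w m)) true
      rw [initTape_lt n w m (by omega)]
      have := Tr.A_go (n := n) (m % n) (wl w m)
      rw [Nat.mod_add_mod] at this
      exact this
    · intro _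
      show initTape (witM n) w = Function.update (initTape (witM n) w) (m + 1)
        ((initTape (witM n) w (m + 1)).rewrite (.raw (wl w m)))
      funext j
      by_cases hj : j = m + 1
      · subst hj
        rw [Function.update_self, initTape_lt n w m (by omega)]
        rfl
      · rw [Function.update_of_ne hj]
    · show sn (m + 1) = insert (m + 1) (sn m)
      rw [sn_insert_succ]

theorem runB (hn : 2 ≤ n) (s : ℕ) (hs : s % n = 0) (hsn : s + n ≤ w.length) (k : ℕ)
    (hk1 : 1 ≤ k) (hk : k < n) :
    ReflTransGen (Step strict w.length) (init (witM n) w)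
      (cf n w .B ⟨k, by omega⟩ (s + k + 1) s (s + k) (s + k)) := by
  induction k with
  | zero => omega
  | succ k ih =>
    rcases Nat.eq_zero_or_pos k with h0 | h0
    · subst h0
      have h1 := runA (strict := strict) (w := w) hn s s (by omega) le_rfl
      refine h1.tail ?_
      have h2 : (⟨s % n, by have := Nat.mod_lt s (show 0 < n by omega); omega⟩ : Fin (n + 1)) =
          ⟨0, by omega⟩ := Fin.ext hs
      rw [h2, ← tp_self n w s]
      refine step_new (w := w) (g := .A) (g' := .B) (i := ⟨0, by omega⟩) (i' := ⟨1, by omega⟩)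
        (pos' := s + 2) (s := s) (m := s)
        (c := wl w s) (b := wl w s) le_rfl (by omega) (Tr.A_start _) rfl ?_ (fun _ => rfl)
        (fun h => absurd h (by simp))
      simp
    · have h1 := ih h0 (by omega)
      refine h1.tail ?_
      refine step_new (w := w) (g := .B) (g' := .B) (i := ⟨k, by omega⟩) (i' := ⟨k + 1, by omega⟩)
        (pos' := s + (k + 1) + 1) (s := s) (m := s + k)
        (c := wl w (s + k)) (b := wl w (s + k)) (by omega) (by omega)
        (Tr.B_go _ _ hk) rfl ?_ (fun _ => by omega) (fun h => absurd h (by simp))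
      have : s + (s + k - s) % n = s + k := by
        rw [Nat.mod_eq_of_lt (by omega)]; omega
      rw [this]

/-- The initial copy. -/
theorem runB_end (hn : 2 ≤ n) (s : ℕ) (hs : s % n = 0) (hsn : s + n ≤ w.length) :
    ReflTransGen (Step strict w.length) (init (witM n) w)
      (cf n w .L ⟨n - 2, by omega⟩ (s + n - 1) s (s + n) (s + n)) := by
  have h1 := runB (strict := strict) (w := w) hn s hs hsn (n - 1) (by omega) (by omega)
  refine h1.tail ?_
  have e1 : s + n = (s + (n - 1)) + 1 := by omega
  rw [e1]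
  refine step_new (w := w) (g := .B) (g' := .L) (i := ⟨n - 1, by omega⟩) (i' := ⟨n - 2, by omega⟩)
        (pos' := s + (n - 1) + 1 - 1) (s := s) (m := s + (n - 1))
        (c := wl w (s + (n - 1))) (b := wl w (s + (n - 1))) (by omega) (by omega)
        (Tr.B_end _ _ (by show n - 1 + 1 = n; omega)) rfl ?_ (fun h => absurd h (by simp)) (fun _ => by omega)
  have : s + (s + (n - 1) - s) % n = s + (n - 1) := by
    rw [Nat.mod_eq_of_lt (by omega)]; omega
  rw [this]

theorem runL (hn : 2 ≤ n) (s m : ℕ) (hsm : s + n ≤ m) (hm : m ≤ w.length) (k : ℕ)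
    (hk : k + 2 ≤ n) :
    ReflTransGen (Step strict w.length)
      (cf n w .L ⟨k, by omega⟩ (m + 1 - n + k) s m m)
      (cf n w .L ⟨0, by omega⟩ (m + 1 - n) s m m) := by
  induction k with
  | zero => exact ReflTransGen.refl
  | succ k ih =>
    refine ReflTransGen.head ?_ (ih (by omega))
    obtain ⟨t, ht⟩ : ∃ t, m + 1 - n + (k + 1) = t + 1 := ⟨m + 1 - n + k, by omega⟩
    have hcell : tp n w s m (m + 1 - n + (k + 1)) =
        .sym (.cp (wl w t) (wl w (s + (t - s) % n))) := by
      rw [ht]
      exact tp_cp n w s m t (by omega) (by omega) (by omega)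
    refine step_old (by omega) (by omega) (by omega) (d := false)
      (v := .cp (wl w t) (wl w (s + (t - s) % n))) ?_ ?_ (fun h => absurd h (by simp))
      (fun _ => by omega)
    · rw [hcell]
      exact Tr.L_go k _
    · rw [hcell]; rfl

theorem runR (hn : 2 ≤ n) (s m : ℕ) (b : Bool) (hsm : s + n ≤ m) (hm : m ≤ w.length) (k : ℕ)
    (hk : k + 1 ≤ n) :
    ReflTransGen (Step strict w.length)
      (cf n w (.R b) ⟨k, by omega⟩ (m + 1 - k) s m m)
      (cf n w (.R b) ⟨0, by omega⟩ (m + 1) s m m) := by
  induction k with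
  | zero => exact ReflTransGen.refl
  | succ k ih =>
    refine ReflTransGen.head ?_ (ih (by omega))
    obtain ⟨t, ht⟩ : ∃ t, m + 1 - (k + 1) = t + 1 := ⟨m - (k + 1), by omega⟩
    have hcell : tp n w s m (m + 1 - (k + 1)) =
        .sym (.cp (wl w t) (wl w (s + (t - s) % n))) := by
      rw [ht]
      exact tp_cp n w s m t (by omega) (by omega) (by omega)
    refine step_old (by omega) (by omega) (by omega) (d := true)
      (v := .cp (wl w t) (wl w (s + (t - s) % n))) ?_ ?_ (fun _ => by omega)
      (fun h => absurd h (by simp))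
    · rw [hcell]
      exact Tr.R_go b k _
    · rw [hcell]; rfl

/-- One fetch. -/
theorem fetch (hn : 2 ≤ n) (s m : ℕ) (hsm : s + n ≤ m) (hm : m ≤ w.length) :
    ReflTransGen (Step strict w.length)
      (cf n w .L ⟨n - 2, by omega⟩ (m - 1) s m m)
      (cf n w (.R (wl w (s + (m - s) % n))) ⟨0, by omega⟩ (m + 1) s m m) := by
  have h1 := runL (strict := strict) (w := w) hn s m hsm hm (n - 2) (by omega)
  have e1 : m + 1 - n + (n - 2) = m - 1 := by omega
  rw [e1] at h1
  have h2 := runR (strict := strict) (w := w) hn s m (wl w (s + (m - s) % n)) hsm hm (n - 1)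
    (by omega)
  refine h1.trans (ReflTransGen.head ?_ h2)
  have e2 : m + 1 - n = (m - n) + 1 := by omega
  have hcell : tp n w s m (m + 1 - n) =
      .sym (.cp (wl w (m - n)) (wl w (s + (m - s) % n))) := by
    rw [e2, tp_cp n w s m (m - n) (by omega) (by omega) (by omega)]
    have : m - s = (m - n - s) + n := by omega
    rw [this, Nat.add_mod_right]
  refine step_old (by omega) (by omega) (by omega) (d := true)
    (v := .cp (wl w (m - n)) (wl w (s + (m - s) % n))) ?_ ?_ (fun _ => by omega)
    (fun h => absurd h (by simp))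
  · rw [hcell]
    exact Tr.L_read _ _
  · rw [hcell]; rfl

theorem runCopy (hn : 2 ≤ n) (s : ℕ) (hs : s % n = 0) (hsn : s + n ≤ w.length) (k : ℕ)
    (hk : s + n + k ≤ w.length) :
    ReflTransGen (Step strict w.length) (init (witM n) w)
      (cf n w .L ⟨n - 2, by omega⟩ (s + n + k - 1) s (s + n + k) (s + n + k)) := by
  induction k with
  | zero => exact runB_end hn s hs hsn
  | succ k ih =>
    have h1 := (ih (by omega)).trans (fetch (strict := strict) (w := w) hn s (s + n + k)
      (by omega) (by omega))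
    refine h1.tail ?_
    exact step_new (w := w) (g' := .L) (i' := ⟨n - 2, by omega⟩)
        (pos' := s + n + (k + 1) - 1) (s := s) (m := s + n + k) (by omega) (by omega)
        (Tr.R_write _ _) rfl rfl (fun h => absurd h (by simp)) (fun _ => by omega)

theorem runV (hn : 2 ≤ n) (s : ℕ) (hsn : s + n ≤ w.length)
    (hne : ∀ t, w.length ≤ t + n → t < w.length → wl w t ≠ wl w (s + (t - s) % n)) (k : ℕ)
    (hk : k + 1 ≤ n) :
    ReflTransGen (Step strict w.length)
      (cf n w .V ⟨k, by omega⟩ (w.length + 1 - n + k) s w.length (w.length + 1))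
      (cf n w .V ⟨0, by omega⟩ (w.length + 1 - n) s w.length (w.length + 1)) := by
  induction k with
  | zero => exact ReflTransGen.refl
  | succ k ih =>
    refine ReflTransGen.head ?_ (ih (by omega))
    obtain ⟨t, ht⟩ : ∃ t, w.length + 1 - n + (k + 1) = t + 1 := ⟨w.length + 1 - n + k, by omega⟩
    have hcell : tp n w s w.length (w.length + 1 - n + (k + 1)) =
        .sym (.cp (wl w t) (wl w (s + (t - s) % n))) := by
      rw [ht]
      exact tp_cp n w s w.length t (by omega) (by omega) (by omega)
    refine step_old (by omega) (by omega) (by omega) (d := false)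
      (v := .cp (wl w t) (wl w (s + (t - s) % n))) ?_ ?_ (fun h => absurd h (by simp))
      (fun _ => by omega)
    · rw [hcell]
      exact Tr.V_go k _ _ (hne t (by omega) (by omega))
    · rw [hcell]; rfl

theorem runG (hn : 2 ≤ n) (s : ℕ) (hsn : s + n ≤ w.length) (k : ℕ) (hk : k ≤ n) :
    ReflTransGen (Step strict w.length)
      (cf n w .G ⟨0, by omega⟩ (w.length + 1 - k) s w.length (w.length + 1))
      (cf n w .G ⟨0, by omega⟩ (w.length + 2) s w.length (w.length + 1)) := by
  induction k with
  | zero =>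
    refine ReflTransGen.single ?_
    have hcell : tp n w s w.length (w.length + 1 - 0) = .rm := tp_rm n w s w.length le_rfl
    refine step_old (by omega) (by omega) (by omega) (d := true) (v := .raw false) ?_ ?_
      (fun _ => by omega) (fun h => absurd h (by simp))
    · rw [hcell]
      exact Tr.G_end
    · rw [hcell]; rfl
  | succ k ih =>
    refine ReflTransGen.head ?_ (ih (by omega))
    obtain ⟨t, ht⟩ : ∃ t, w.length + 1 - (k + 1) = t + 1 := ⟨w.length - (k + 1), by omega⟩
    have hcell : tp n w s w.length (w.length + 1 - (k + 1)) =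
        .sym (.cp (wl w t) (wl w (s + (t - s) % n))) := by
      rw [ht]
      exact tp_cp n w s w.length t (by omega) (by omega) (by omega)
    refine step_old (by omega) (by omega) (by omega) (d := true)
      (v := .cp (wl w t) (wl w (s + (t - s) % n))) ?_ ?_ (fun _ => by omega)
      (fun h => absurd h (by simp))
    · rw [hcell]
      exact Tr.G_go _
    · rw [hcell]; rfl

theorem complete (hn : 2 ≤ n) (s : ℕ) (hs : s % n = 0) (hsn : s + n ≤ w.length)
    (hne : ∀ t, w.length ≤ t + n → t < w.length → wl w t ≠ wl w (s + (t - s) % n)) :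
    w ∈ (witM n).language strict := by
  have h1 := runCopy (strict := strict) (w := w) hn s hs hsn (w.length - (s + n)) (by omega)
  have e1 : s + n + (w.length - (s + n)) = w.length := by omega
  rw [e1] at h1
  have h2 := h1.trans (fetch (strict := strict) (w := w) hn s w.length hsn le_rfl)
  have h3 : Step strict w.length
      (cf n w (.R (wl w (s + (w.length - s) % n))) ⟨0, by omega⟩ (w.length + 1) s w.length w.length)
      (cf n w .V ⟨n - 1, by omega⟩ w.length s w.length (w.length + 1)) := by
    have hn' := succ_notMem_sn w.length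
    have hcell : tp n w s w.length (w.length + 1) = .rm := tp_rm n w s w.length le_rfl
    refine ⟨le_rfl, _, .raw false, false, ?_, fun _ h => absurd h hn', rfl,
      fun h => absurd h hn', ?_, ?_, fun h => absurd h (by simp), fun _ => rfl⟩
    · show Tr n (.R (wl w (s + (w.length - s) % n))) 0 (tp n w s w.length (w.length + 1)) .V
        (n - 1) (.raw false) false
      rw [hcell]
      exact Tr.R_end _
    · intro _
      show tp n w s w.length = Function.update (tp n w s w.length) (w.length + 1)
        ((tp n w s w.length (w.length + 1)).rewrite (.raw false))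
      funext j
      by_cases hj : j = w.length + 1
      · subst hj
        rw [Function.update_self, hcell]
        rfl
      · rw [Function.update_of_ne hj]
    · show sn (w.length + 1) = insert (w.length + 1) (sn w.length)
      rw [sn_insert_succ]
  have h4 := runV (strict := strict) (w := w) hn s hsn hne (n - 1) (by omega)
  have e2 : w.length + 1 - n + (n - 1) = w.length := by omega
  rw [e2] at h4
  have h5 : Step strict w.length
      (cf n w .V ⟨0, by omega⟩ (w.length + 1 - n) s w.length (w.length + 1))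
      (cf n w .G ⟨0, by omega⟩ (w.length + 1 - (n - 1)) s w.length (w.length + 1)) := by
    obtain ⟨t, ht⟩ : ∃ t, w.length + 1 - n = t + 1 := ⟨w.length - n, by omega⟩
    have hcell : tp n w s w.length (w.length + 1 - n) =
        .sym (.cp (wl w t) (wl w (s + (t - s) % n))) := by
      rw [ht]
      exact tp_cp n w s w.length t (by omega) (by omega) (by omega)
    refine step_old (by omega) (by omega) (by omega) (d := true)
      (v := .cp (wl w t) (wl w (s + (t - s) % n))) ?_ ?_ (fun _ => by omega)
      (fun h => absurd h (by simp))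
    · rw [hcell]
      exact Tr.V_end _ _ (hne t (by omega) (by omega))
    · rw [hcell]; rfl
  have h6 := runG (strict := strict) (w := w) hn s hsn (n - 1) (by omega)
  exact ⟨_, ((h2.tail h3).trans h4).tail h5 |>.trans h6, rfl, rfl⟩

theorem mem_witM (hn : 2 ≤ n) : w ∈ (witM n).language strict ↔
    ∃ s, s % n = 0 ∧ s + n ≤ w.length ∧
      ∀ t, w.length ≤ t + n → t < w.length → wl w t ≠ wl w (s + (t - s) % n) :=
  ⟨fun h => sound hn h, fun ⟨s, h1, h2, h3⟩ => complete hn s h1 h2 h3⟩

end complete

end Pool.Agent.H630R2.LA
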