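import Mathlib
import Pool.Agent.H630R2.LA.WitCorrect

set_option autoImplicit false

namespace Pool.Agent.H630R2.LA

open Relation

theorem wl_left {K : ℕ} (f : Fin K → Bool) (z : List Bool) (t : ℕ) (ht : t < K) :
    wl (List.ofFn f ++ z) t = f ⟨t, ht⟩ := by
  unfold wl
  rw [List.getD_eq_getElem?_getD, List.getElem?_append_left (by simpa using ht),
    List.getElem?_ofFn, dif_pos ht]
  rfl

theorem wl_right {K n : ℕ} (f : Fin K → Bool) (g : Fin n → Bool) (j : ℕ) (hj : j < n) :
    wl (List.ofFn f ++ List.ofFn g) (K + j) = g ⟨j, hj⟩ := by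
  unfold wl
  rw [List.getD_eq_getElem?_getD, List.getElem?_append_right (by simp), List.length_ofFn,
    Nat.add_sub_cancel_left, List.getElem?_ofFn, dif_pos hj]
  rfl

theorem div_lt_aux {a n K : ℕ} (h : a < K * n) : a / n < K :=
  Nat.div_lt_of_lt_mul (by rw [Nat.mul_comm]; exact h)

section

variable {n : ℕ}

/-- The vectors different from zero. -/
def NZ (n : ℕ) : Type := {v : Fin n → Bool // v ≠ fun _ => false}

instance : Finite (NZ n) := inferInstanceAs (Finite {v : Fin n → Bool // v ≠ fun _ => false})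

theorem card_NZ (n : ℕ) : Nat.card (NZ n) + 1 = 2 ^ n := by
  have h1 : Nat.card (NZ n) = Fintype.card {v : Fin n → Bool // v ≠ fun _ => false} := by
    unfold NZ
    rw [Nat.card_eq_fintype_card]
  rw [h1, Fintype.card_subtype_compl]
  simp only [Fintype.card_subtype_eq, Fintype.card_fun, Fintype.card_fin, Fintype.card_bool]
  have : 1 ≤ 2 ^ n := Nat.one_le_two_pow
  omega

theorem card_vec (n : ℕ) : Nat.card (Fin n → Bool) = 2 ^ n := by
  simp

/-- An enumeration of all vectors. -/
noncomputable def enumV (n : ℕ) : Fin (2 ^ n) ≃ (Fin n → Bool) :=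
  (finCongr (card_vec n).symm).trans (Finite.equivFin (Fin n → Bool)).symm

open Classical in
/-- The blocks of the word for the set `G`. -/
noncomputable def blk (G : Set (NZ n)) (i : Fin (2 ^ n)) : Fin n → Bool :=
  if ∃ h : enumV n i ≠ fun _ => false, (⟨enumV n i, h⟩ : NZ n) ∈ G then enumV n i
  else fun _ => false

theorem exists_blk (G : Set (NZ n)) (x : NZ n) : (∃ i, blk G i = x.1) ↔ x ∈ G := by
  constructor
  · rintro ⟨i, hi⟩
    unfold blk at hi
    split_ifs at hi with h
    · obtain ⟨h1, h2⟩ := h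
      have : x = ⟨enumV n i, h1⟩ := Subtype.ext hi.symm
      rw [this]
      exact h2
    · exact absurd hi.symm x.2
  · intro hx
    refine ⟨(enumV n).symm x.1, ?_⟩
    unfold blk
    have h1 : enumV n ((enumV n).symm x.1) = x.1 := Equiv.apply_symm_apply _ _
    rw [if_pos]
    · exact h1
    · rw [h1]
      exact ⟨x.2, hx⟩

/-- The word for the set `G`. -/
noncomputable def wordG (hn : 0 < n) (G : Set (NZ n)) : List Bool :=
  List.ofFn (fun t : Fin (2 ^ n * n) =>
    blk G ⟨t.val / n, div_lt_aux t.isLt⟩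
      ⟨t.val % n, Nat.mod_lt _ hn⟩)

theorem mem_wordG (hn : 2 ≤ n) {strict : Prop} (G : Set (NZ n)) (y : Fin n → Bool) :
    wordG (by omega) G ++ List.ofFn y ∈ (witM n).language strict ↔
      ∃ i, ∀ j, y j ≠ blk G i j := by
  have hn0 : 0 < n := by omega
  have hlen : (wordG hn0 G ++ List.ofFn y).length = 2 ^ n * n + n := by
    simp [wordG]
  rw [mem_witM hn, hlen]
  constructor
  · rintro ⟨s, hs, hsn, h⟩
    obtain ⟨i, rfl⟩ : ∃ i, s = i * n := ⟨s / n, by
      have := Nat.div_add_mod s n
      rw [hs, Nat.add_zero, Nat.mul_comm] at this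
      exact this.symm⟩
    have hi : i ≤ 2 ^ n := by
      have : i * n ≤ 2 ^ n * n := by omega
      exact Nat.le_of_mul_le_mul_right this hn0
    have hmod : ∀ j, j < n → (2 ^ n * n + j - i * n) % n = j := by
      intro j hj
      have h1 : 2 ^ n * n + j - i * n = (2 ^ n - i) * n + j := by
        rw [Nat.sub_mul]
        have : i * n ≤ 2 ^ n * n := Nat.mul_le_mul_right _ hi
        omega
      rw [h1, Nat.mul_add_mod_self_right, Nat.mod_eq_of_lt hj]
    have hi' : i < 2 ^ n := by
      rcases Nat.lt_or_ge i (2 ^ n) with h1 | h1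
      · exact h1
      · exfalso
        have hi2 : i = 2 ^ n := le_antisymm hi h1
        have := h (2 ^ n * n + 0) (by omega) (by omega)
        rw [hmod 0 hn0, hi2] at this
        exact this rfl
    refine ⟨⟨i, hi'⟩, ?_⟩
    intro j
    have h1 := h (2 ^ n * n + j.val) (by omega) (by omega)
    rw [hmod j.val j.isLt] at h1
    have h2 : i * n + j.val < 2 ^ n * n := by
      calc i * n + j.val < i * n + n := by omega
        _ = (i + 1) * n := by ring
        _ ≤ 2 ^ n * n := Nat.mul_le_mul_right _ hi'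
    unfold wordG at h1
    rw [wl_right _ _ _ j.isLt, wl_left _ _ _ h2] at h1
    have h3 : (⟨(i * n + j.val) / n, div_lt_aux h2⟩ :
        Fin (2 ^ n)) = ⟨i, hi'⟩ := by
      apply Fin.ext
      show (i * n + j.val) / n = i
      rw [Nat.mul_comm, Nat.mul_add_div hn0, Nat.div_eq_of_lt j.isLt, Nat.add_zero]
    have h4 : (⟨(i * n + j.val) % n, Nat.mod_lt _ hn0⟩ : Fin n) = j := by
      apply Fin.ext
      show (i * n + j.val) % n = j.val
      rw [Nat.mul_add_mod_self_right, Nat.mod_eq_of_lt j.isLt]
    rw [h3, h4] at h1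
    exact h1
  · rintro ⟨i, hi⟩
    have hile : (i.val + 1) * n ≤ 2 ^ n * n := Nat.mul_le_mul_right _ i.isLt
    have e1 : (i.val + 1) * n = i.val * n + n := by ring
    refine ⟨i.val * n, Nat.mul_mod_left _ _, by omega, ?_⟩
    intro t h1 h2
    obtain ⟨j, rfl⟩ : ∃ j, t = 2 ^ n * n + j := ⟨t - 2 ^ n * n, by omega⟩
    have hj : j < n := by omega
    have hmod : (2 ^ n * n + j - i.val * n) % n = j := by
      have h1 : 2 ^ n * n + j - i.val * n = (2 ^ n - i.val) * n + j := by
        rw [Nat.sub_mul]
        omega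
      rw [h1, Nat.mul_add_mod_self_right, Nat.mod_eq_of_lt hj]
    rw [hmod]
    have h2 : i.val * n + j < 2 ^ n * n := by omega
    unfold wordG
    rw [wl_right _ _ _ hj, wl_left _ _ _ h2]
    have h3 : (⟨(i.val * n + j) / n, div_lt_aux h2⟩ :
        Fin (2 ^ n)) = i := by
      apply Fin.ext
      show (i.val * n + j) / n = i.val
      rw [Nat.mul_comm, Nat.mul_add_div hn0, Nat.div_eq_of_lt hj, Nat.add_zero]
    have h4 : (⟨(i.val * n + j) % n, Nat.mod_lt _ hn0⟩ : Fin n) = ⟨j, hj⟩ := by
      apply Fin.ext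
      show (i.val * n + j) % n = j
      rw [Nat.mul_add_mod_self_right, Nat.mod_eq_of_lt hj]
    rw [h3, h4]
    exact hi ⟨j, hj⟩

/-- Every deterministic machine equivalent to the witness is exponentially large. -/
theorem lower (hn : 2 ≤ n) (strict : Prop) (M : LimAut Bool) (hd : M.Deterministic)
    (hM : M.language strict = (witM n).language strict) : 2 ^ n ≤ M.size ^ 2 := by
  have h1 := card_le_of_distinguished (strict := strict) hd (T := NZ n)
    (fun G => wordG (by omega) G) (by
      intro G G' hne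
      obtain ⟨x, hx⟩ : ∃ x, ¬ (x ∈ G ↔ x ∈ G') := by
        by_contra h
        push Not at h
        exact hne (Set.ext h)
      refine ⟨List.ofFn (fun j => !(x.1 j)), ?_⟩
      rw [hM, mem_wordG hn, mem_wordG hn]
      have key : ∀ G : Set (NZ n), (∃ i, ∀ j, (!(x.1 j)) ≠ blk G i j) ↔ x ∈ G := by
        intro G
        rw [← exists_blk]
        constructor
        · rintro ⟨i, hi⟩
          refine ⟨i, funext fun j => ?_⟩
          have := hi j
          revert this
          cases x.1 j <;> cases blk G i j <;> simp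
        · rintro ⟨i, hi⟩
          refine ⟨i, fun j => ?_⟩
          rw [hi]
          cases x.1 j <;> simp
      rw [key, key]
      exact hx)
  have h2 := card_NZ n
  have h3 : Nat.card M.Q + 3 ≤ M.size := by
    unfold LimAut.size
    omega
  have h4 : (Nat.card M.Q + 3) ^ 2 ≤ M.size ^ 2 := Nat.pow_le_pow_left h3 2
  nlinarith

end

end Pool.Agent.H630R2.LA
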